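import Mathlib

set_option autoImplicit false
open Set Filter Topology Function

namespace Pool.Agent.H.MP_36cdb9

variable {X : Type} [NormedAddCommGroup X] [NormedSpace ℝ X]

theorem l1 [CompleteSpace X] (x : ℕ → X) {M R a b : ℝ} (hM : ∀ n, ‖x n‖ ≤ M) (hab : a < b)
    (hR : 0 < R) (h : ∀ n (σ : ℕ → Bool), ∃ ψ : X →L[ℝ] ℝ, ‖ψ‖ ≤ R ∧
      ∀ i < n, (σ i = true → b ≤ ψ (x i)) ∧ (σ i = false → ψ (x i) ≤ a)) :
    ∃ T : (lp (fun _ : ℕ => ℝ) 1) →L[ℝ] X, ∃ c : ℝ, 0 < c ∧ ∀ a, c * ‖a‖ ≤ ‖T a‖ := by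
  have h1 : ∀ y : lp (fun _ : ℕ => ℝ) 1, HasSum (fun i => ‖y i‖) ‖y‖ := fun y => by
    simpa using lp.hasSum_norm (by simp) y
  have h2 : ∀ (y : lp (fun _ : ℕ => ℝ) 1) i, ‖y i • x i‖ ≤ M * ‖y i‖ := fun y i => by
    rw [norm_smul, mul_comm]
    exact mul_le_mul_of_nonneg_right (hM i) (norm_nonneg _)
  have h3 : ∀ y : lp (fun _ : ℕ => ℝ) 1, Summable fun i => y i • x i := fun y =>
    ((h1 y).mul_left M).summable.of_norm_bounded (h2 y)
  refine ⟨LinearMap.mkContinuous ⟨⟨fun y => ∑' i, y i • x i, fun y z => by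
    simp only [lp.coeFn_add, Pi.add_apply, add_smul, (h3 y).tsum_add (h3 z)]⟩, fun t y => by
    simp only [lp.coeFn_smul, Pi.smul_apply, smul_assoc, (h3 y).tsum_const_smul t,
      RingHom.id_apply]⟩ M fun y => tsum_of_norm_bounded ((h1 y).mul_left M) (h2 y),
    (b - a) / (2 * R), by have := sub_pos.2 hab; positivity, fun y => le_of_tendsto_of_tendsto'
      ((h1 y).tendsto_sum_nat.const_mul _) (h3 y).hasSum.tendsto_sum_nat.norm fun n => ?_⟩
  obtain ⟨φ, p1, p2⟩ := h n fun i => decide (0 ≤ y i)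
  obtain ⟨ψ, q1, q2⟩ := h n fun i => decide (¬ 0 ≤ y i)
  have e1 := (le_abs_self _).trans (φ.le_of_opNorm_le p1 (∑ i ∈ Finset.range n, y i • x i))
  have e2 := (le_abs_self _).trans (ψ.le_of_opNorm_le q1 (-∑ i ∈ Finset.range n, y i • x i))
  have e3 : ∑ i ∈ Finset.range n, (b - a) * ‖y i‖ ≤
      ∑ i ∈ Finset.range n, (y i * φ (x i) - y i * ψ (x i)) := Finset.sum_le_sum fun i hi => by
    have p := p2 i (Finset.mem_range.1 hi)
    have q := q2 i (Finset.mem_range.1 hi)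
    by_cases h0 : 0 ≤ y i
    · rw [Real.norm_of_nonneg h0]
      nlinarith [p.1 (by simpa using h0), q.2 (by simpa using h0)]
    · rw [Real.norm_of_nonpos (not_le.1 h0).le]
      nlinarith [p.2 (by simpa using h0), q.1 (by simpa using h0), not_le.1 h0]
  simp only [map_neg, norm_neg, map_sum, map_smul, smul_eq_mul, ← Finset.mul_sum,
    Finset.sum_sub_distrib] at e1 e2 e3
  rw [div_mul_eq_mul_div, div_le_iff₀ (by positivity)]
  linarith

theorem var {A : Type} [Fintype A] {w z : A → ℝ} (h1 : ∑ a, w a = 1) {r : ℝ}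
    (h : r = ∑ a, w a * z a) : ∑ a, w a * (z a - r) ^ 2 = ∑ a, w a * z a ^ 2 - r ^ 2 := by
  have : ∀ a, w a * (z a - r) ^ 2 = w a * z a ^ 2 - 2 * r * (w a * z a) + r ^ 2 * w a :=
    fun a => by ring
  simp only [this, Finset.sum_add_distrib, Finset.sum_sub_distrib, ← Finset.mul_sum, ← h, h1]
  ring

theorem jen {A : Type} [Fintype A] {w z : A → ℝ} (h0 : ∀ a, 0 ≤ w a) (h1 : ∑ a, w a = 1) :
    (∑ a, w a * z a) ^ 2 ≤ ∑ a, w a * z a ^ 2 := by
  have := var (z := z) h1 rfl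
  have h2 : 0 ≤ ∑ a, w a * (z a - ∑ a, w a * z a) ^ 2 :=
    Finset.sum_nonneg fun a _ => mul_nonneg (h0 a) (sq_nonneg _)
  linarith

variable {α : ℕ → Type} [∀ l, Fintype (α l)]

def Harm (w : ∀ l, α l → ℝ) (ρ : (∀ l, Option (α l)) → ℝ) : Prop :=
  ∀ p l, p l = none → ρ p = ∑ a, w l a * ρ (update p l (some a))

theorem energy {w : ∀ l, α l → ℝ} (h0 : ∀ l a, 0 ≤ w l a) (h1 : ∀ l, ∑ a, w l a = 1)
    {ρ : (∀ l, Option (α l)) → ℝ} (h : Harm w ρ) {M : ℝ} (hM : ∀ p, |ρ p| ≤ M) (L : Finset ℕ) :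
    ∀ p : ∀ l, Option (α l), (∀ l ∈ L, p l = none) →
      ∑ l ∈ L, ∑ a, w l a * (ρ (update p l (some a)) - ρ p) ^ 2 ≤ M ^ 2 - ρ p ^ 2 := by
  induction L using Finset.induction_on with
  | empty =>
    intro p _
    have := sq_le_sq' (abs_le.1 (hM p)).1 (abs_le.1 (hM p)).2
    simpa using this
  | insert m L hm ih =>
    intro p hp
    have hpm := hp m (Finset.mem_insert_self _ _)
    have ne : ∀ l ∈ L, l ≠ m := fun l hl e => hm (e ▸ hl)
    have e1 : ∑ a, w m a * ∑ l ∈ L, ∑ b, w l b *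
        (ρ (update (update p m (some a)) l (some b)) - ρ (update p m (some a))) ^ 2 ≤
        ∑ a, w m a * (M ^ 2 - ρ (update p m (some a)) ^ 2) :=
      Finset.sum_le_sum fun a _ => mul_le_mul_of_nonneg_left (ih _ fun l hl => by
        rw [update_of_ne (ne l hl)]
        exact hp l (Finset.mem_insert_of_mem hl)) (h0 m a)
    have e2 : ∑ l ∈ L, ∑ b, w l b * (ρ (update p l (some b)) - ρ p) ^ 2 ≤
        ∑ a, w m a * ∑ l ∈ L, ∑ b, w l b *
        (ρ (update (update p m (some a)) l (some b)) - ρ (update p m (some a))) ^ 2 := by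
      simp only [Finset.mul_sum]
      rw [Finset.sum_comm]
      refine Finset.sum_le_sum fun l hl => ?_
      rw [Finset.sum_comm]
      refine Finset.sum_le_sum fun b _ => ?_
      have e : ρ (update p l (some b)) - ρ p = ∑ a, w m a *
          (ρ (update (update p m (some a)) l (some b)) - ρ (update p m (some a))) := by
        rw [h p m hpm, h (update p l (some b)) m (by rwa [update_of_ne (ne l hl).symm]),
          ← Finset.sum_sub_distrib]
        refine Finset.sum_congr rfl fun a _ => ?_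
        rw [update_comm (ne l hl), mul_sub]
      simp only [mul_left_comm (w m _) (w l b), ← Finset.mul_sum]
      rw [e]
      exact mul_le_mul_of_nonneg_left (jen (h0 m) (h1 m)) (h0 l b)
    rw [Finset.sum_insert hm, var (h1 m) (h p m hpm)]
    simp only [mul_sub, Finset.sum_sub_distrib, ← Finset.sum_mul, h1 m] at e1
    linarith

theorem stab {w : ∀ l, α l → ℝ} (h0 : ∀ l a, 0 ≤ w l a) (h1 : ∀ l, ∑ a, w l a = 1)
    {ρ : (∀ l, Option (α l)) → ℝ} (h : Harm w ρ) {M : ℝ} (hM : ∀ p, |ρ p| ≤ M)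
    {p : ∀ l, Option (α l)} (hp : ∀ᶠ l in atTop, p l = none) :
    Tendsto (fun l => ∑ a, w l a * (ρ (update p l (some a)) - ρ p) ^ 2) atTop (𝓝 0) := by
  obtain ⟨n, hn⟩ := eventually_atTop.1 hp
  rw [← tendsto_add_atTop_iff_nat n]
  refine (summable_of_sum_le (c := M ^ 2 - ρ p ^ 2) (fun l => Finset.sum_nonneg fun a _ =>
    mul_nonneg (h0 _ a) (sq_nonneg _)) fun u => ?_).tendsto_atTop_zero
  have := energy h0 h1 h hM (u.image (· + n)) p fun l hl => by
    obtain ⟨k, -, rfl⟩ := Finset.mem_image.1 hl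
    exact hn _ (Nat.le_add_left _ _)
  rwa [Finset.sum_image fun a _ b _ e => Nat.add_right_cancel e] at this

theorem exU {w : ∀ l, α l → ℝ} (h0 : ∀ l a, 0 ≤ w l a) (h1 : ∀ l, ∑ a, w l a = 1) :
    ∃ U : Ultrafilter (Σ l, α l), ∀ g : (Σ l, α l) → ℝ, (∀ z, 0 ≤ g z) →
      Tendsto (fun l => ∑ a, w l a * g ⟨l, a⟩) atTop (𝓝 0) → Tendsto g U (𝓝 0) := by
  let S := {g : (Σ l, α l) → ℝ // (∀ z, 0 ≤ g z) ∧
    Tendsto (fun l => ∑ a, w l a * g ⟨l, a⟩) atTop (𝓝 0)}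
  have : Nonempty S := ⟨⟨0, fun _ => le_rfl, by simp⟩⟩
  have nb : NeBot (⨅ g : S, comap g.1 (𝓝 0)) := by
    refine iInf_neBot_of_directed' (fun g k => ⟨⟨g.1 + k.1, fun z => add_nonneg (g.2.1 z) (k.2.1 z),
      ?_⟩, ?_, ?_⟩) fun g => comap_neBot fun t ht => ?_
    · simpa [mul_add, Finset.sum_add_distrib] using g.2.2.add k.2.2
    · exact tendsto_iff_comap.1 (squeeze_zero g.2.1 (fun z => le_add_of_nonneg_right (k.2.1 z))
        tendsto_comap)
    · exact tendsto_iff_comap.1 (squeeze_zero k.2.1 (fun z => le_add_of_nonneg_left (g.2.1 z))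
        tendsto_comap)
    · obtain ⟨δ, d0, hd⟩ := Metric.mem_nhds_iff.1 ht
      obtain ⟨l, hl⟩ := (g.2.2.eventually (gt_mem_nhds d0)).exists
      by_contra hc
      have : ∑ a, w l a * δ ≤ ∑ a, w l a * g.1 ⟨l, a⟩ := Finset.sum_le_sum fun a _ =>
        mul_le_mul_of_nonneg_left (not_lt.1 fun e => hc ⟨⟨l, a⟩, hd (by
          rwa [mem_ball_zero_iff, Real.norm_of_nonneg (g.2.1 _)])⟩) (h0 l a)
      rw [← Finset.sum_mul, h1 l] at this
      linarith
  exact ⟨Ultrafilter.of (⨅ g : S, comap g.1 (𝓝 0)), fun g g0 g1 => tendsto_iff_comap.2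
    ((Ultrafilter.of_le _).trans (iInf_le (fun g : S => comap g.1 (𝓝 0)) ⟨g, g0, g1⟩))⟩

end Pool.Agent.H.MP_36cdb9
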