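import Pool.Agent.H.MP_36cdb9.A

set_option autoImplicit false
open Set Filter Topology Function

namespace Pool.Agent.H.MP_36cdb9

variable {X : Type} [NormedAddCommGroup X] [NormedSpace ℝ X]
variable {ι : ℕ → Type} [∀ l, Fintype (ι l)]

noncomputable def hw (v : ∀ l, ι l → ℝ) (l : ℕ) (a : ι l × Bool) : ℝ := v l a.1 / 2

theorem hw0 {v : ∀ l, ι l → ℝ} (h0 : ∀ l a, 0 ≤ v l a) (l : ℕ) (a : ι l × Bool) :
    0 ≤ hw v l a := div_nonneg (h0 l a.1) two_pos.le

theorem hw1 {v : ∀ l, ι l → ℝ} (h1 : ∀ l, ∑ a, v l a = 1) (l : ℕ) : ∑ a, hw v l a = 1 := by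
  simp [hw, Fintype.sum_prod_type, ← h1 l, ← two_mul, mul_div_cancel₀]

theorem stabU {v : ∀ l, ι l → ℝ} (h0 : ∀ l a, 0 ≤ v l a) (h1 : ∀ l, ∑ a, v l a = 1)
    {U : Ultrafilter (Σ l, ι l)} (hU : ∀ g : (Σ l, ι l) → ℝ, (∀ z, 0 ≤ g z) →
      Tendsto (fun l => ∑ a, v l a * g ⟨l, a⟩) atTop (𝓝 0) → Tendsto g U (𝓝 0))
    {ρ : (∀ l, Option (ι l × Bool)) → ℝ} (h : Harm (hw v) ρ) {M : ℝ} (hM : ∀ p, |ρ p| ≤ M)
    {p : ∀ l, Option (ι l × Bool)} (hp : ∀ᶠ l in atTop, p l = none) (σ : Bool) {δ : ℝ}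
    (hδ : 0 < δ) : ∀ᶠ z : Σ l, ι l in U, |ρ (update p z.1 (some (z.2, σ))) - ρ p| ≤ δ := by
  have := hU (fun z => (ρ (update p z.1 (some (z.2, σ))) - ρ p) ^ 2) (fun z => sq_nonneg _) (by
    have := (stab (hw0 h0) (hw1 h1) h hM hp).const_mul 2
    rw [mul_zero] at this
    refine squeeze_zero (fun l => Finset.sum_nonneg fun a _ => mul_nonneg (h0 l a) (sq_nonneg _))
      (fun l => ?_) this
    rw [Fintype.sum_prod_type, Finset.mul_sum]
    refine Finset.sum_le_sum fun a _ => ?_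
    have := Finset.single_le_sum (f := fun b : Bool => hw v l (a, b) *
      (ρ (update p l (some (a, b))) - ρ p) ^ 2) (fun b _ => mul_nonneg (hw0 h0 l _) (sq_nonneg _))
      (Finset.mem_univ σ)
    simp only [hw] at this ⊢
    linarith)
  filter_upwards [this.eventually (gt_mem_nhds (pow_pos hδ 2))] with z hz
  exact (abs_lt_of_sq_lt_sq hz hδ.le).le

theorem levU {v : ∀ l, ι l → ℝ} {U : Ultrafilter (Σ l, ι l)}
    (hU : ∀ g : (Σ l, ι l) → ℝ, (∀ z, 0 ≤ g z) →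
      Tendsto (fun l => ∑ a, v l a * g ⟨l, a⟩) atTop (𝓝 0) → Tendsto g U (𝓝 0))
    {P : ℕ → Prop} (hP : ∀ᶠ l in atTop, P l) : ∀ᶠ z : Σ l, ι l in U, P z.1 := by
  classical
  have := hU (fun z => if P z.1 then 0 else 1) (fun z => by split_ifs <;> norm_num)
    (tendsto_const_nhds.congr' (by filter_upwards [hP] with l hl; simp [hl]))
  filter_upwards [this.eventually (gt_mem_nhds one_pos)] with z hz
  by_contra hc
  simp [hc] at hz

theorem toL1 [CompleteSpace X] {v : ∀ l, ι l → ℝ} (h0 : ∀ l a, 0 ≤ v l a)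
    (h1 : ∀ l, ∑ a, v l a = 1) {Θ : (∀ l, Option (ι l × Bool)) → X →L[ℝ] ℝ} {R c : ℝ}
    (hR : 0 < R) (hc : 0 < c) (hΘ : ∀ p, ‖Θ p‖ ≤ R) (hh : ∀ y, Harm (hw v) fun p => Θ p y)
    {x : (Σ l, ι l) → X} (hx : ∀ z, ‖x z‖ ≤ 1)
    (gap : ∀ z : Σ l, ι l, Θ (update (fun _ => none) z.1 (some (z.2, false))) (x z) + c ≤
      Θ (update (fun _ => none) z.1 (some (z.2, true))) (x z)) :
    ∃ T : (lp (fun _ : ℕ => ℝ) 1) →L[ℝ] X, ∃ c : ℝ, 0 < c ∧ ∀ a, c * ‖a‖ ≤ ‖T a‖ := by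
  obtain ⟨U, hU⟩ := exU h0 h1
  have bd : ∀ p z, |Θ p (x z)| ≤ R := fun p z =>
    ((Θ p).le_of_opNorm_le (hΘ p) _).trans (mul_le_of_le_one_right hR.le (hx z))
  have : ∀ (σ : Bool) (p : ∀ l, Option (ι l × Bool)), ∃ A, |A| ≤ R ∧ Tendsto
      (fun z : Σ l, ι l => Θ (update p z.1 (some (z.2, σ))) (x z)) U (𝓝 A) := fun σ p => by
    obtain ⟨A, hA, e⟩ := (isCompact_Icc (a := -R) (b := R)).ultrafilter_le_nhds
      (U.map fun z : Σ l, ι l => Θ (update p z.1 (some (z.2, σ))) (x z))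
      (le_principal_iff.2 (mem_map.2 (univ_mem' fun z => abs_le.1 (bd _ z))))
    exact ⟨A, abs_le.2 hA, e⟩
  choose A hA tA using this
  have Ah : ∀ σ, Harm (hw v) (A σ) := fun σ p m hm => by
    refine tendsto_nhds_unique (tA σ p) ((tendsto_finsetSum _ fun a _ =>
      (tA σ (update p m (some a))).const_mul (hw v m a)).congr' ?_)
    filter_upwards [levU hU (eventually_ne_atTop m)] with z hz
    refine Eq.trans ?_ (hh (x z) (update p z.1 (some (z.2, σ))) m
      (by rwa [update_of_ne hz.symm])).symm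
    exact Finset.sum_congr rfl fun a _ => by rw [update_comm hz]
  have Ag : A false (fun _ => none) + c ≤ A true (fun _ => none) :=
    le_of_tendsto_of_tendsto' ((tA false _).add_const c) (tA true _) gap
  have : ∀ (S : Set (∀ l, Option (ι l × Bool)) × Set X) (n : ℕ), ∃ z : Σ l, ι l,
      S.1.Finite → S.2.Finite → ∀ p ∈ S.1, (∀ᶠ l in atTop, p l = none) → ∀ σ : Bool,
        |Θ (update p z.1 (some (z.2, σ))) (x z) - A σ p| ≤ c / 16 * (1 / 2) ^ n ∧
        (∀ τ, |A τ (update p z.1 (some (z.2, σ))) - A τ p| ≤ c / 16 * (1 / 2) ^ n) ∧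
        ∀ y ∈ S.2, |Θ (update p z.1 (some (z.2, σ))) y - Θ p y| ≤ c / 16 * (1 / 2) ^ n := by
    intro S n
    by_cases f1 : S.1.Finite
    swap
    · exact ⟨(eventually_true U).exists.choose, fun h => (f1 h).elim⟩
    by_cases f2 : S.2.Finite
    swap
    · exact ⟨(eventually_true U).exists.choose, fun _ h => (f2 h).elim⟩
    have d0 : 0 < c / 16 * (1 / 2 : ℝ) ^ n := by positivity
    refine (Eventually.exists (f := U) ?_).imp fun z h _ _ => h
    refine (eventually_all_finite f1).2 fun p _ => eventually_imp_distrib_left.2 fun hp =>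
      eventually_all.2 fun σ => Eventually.and ?_ (Eventually.and (eventually_all.2 fun τ =>
        stabU h0 h1 hU (Ah τ) (hA τ) hp σ d0) ((eventually_all_finite f2).2 fun y _ =>
        stabU h0 h1 hU (hh y) (fun q => (Θ q).le_of_opNorm_le (hΘ q) y) hp σ d0))
    exact (tA σ p).eventually (Metric.closedBall_mem_nhds _ d0)
  choose Z hZ using this
  obtain ⟨S, S0, S1⟩ : ∃ S : ℕ → Set (∀ l, Option (ι l × Bool)) × Set X,
      S 0 = ({fun _ => none}, ∅) ∧ ∀ n, S (n + 1) = ((fun q : _ × Bool => update q.1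
        (Z (S n) n).1 (some ((Z (S n) n).2, q.2))) '' (S n).1 ×ˢ univ,
        insert (x (Z (S n) n)) (S n).2) :=
    ⟨fun n => Nat.rec (motive := fun _ => Set (∀ l, Option (ι l × Bool)) × Set X)
      ({fun _ => none}, ∅) (fun n s => ((fun q : _ × Bool => update q.1
        (Z s n).1 (some ((Z s n).2, q.2))) '' s.1 ×ˢ univ, insert (x (Z s n)) s.2)) n, rfl,
      fun n => rfl⟩
  have fS : ∀ n, (S n).1.Finite ∧ (S n).2.Finite := fun n => by
    induction n with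
    | zero => simp [S0]
    | succ n ih => rw [S1]; exact ⟨(ih.1.prod finite_univ).image _, ih.2.insert _⟩
  have mS : ∀ n, ∀ m < n, x (Z (S m) m) ∈ (S n).2 := fun n => by
    induction n with
    | zero => simp
    | succ n ih =>
      intro m hm
      rw [S1]
      rcases (Nat.lt_succ_iff.1 hm).lt_or_eq with e | rfl
      exacts [Or.inr (ih m e), Or.inl rfl]
  refine l1 (fun n => x (Z (S n) n)) (a := A false (fun _ => none) + c / 4)
    (b := A true (fun _ => none) - c / 4) (fun n => hx _) (by linarith) hR fun n σ => ?_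
  obtain ⟨p, p0, p1⟩ : ∃ p : ℕ → ∀ l, Option (ι l × Bool), p 0 = (fun _ => none) ∧
      ∀ n, p (n + 1) = update (p n) (Z (S n) n).1 (some ((Z (S n) n).2, σ n)) :=
    ⟨fun n => Nat.rec (motive := fun _ => ∀ l, Option (ι l × Bool)) (fun _ => none)
      (fun n q => update q (Z (S n) n).1 (some ((Z (S n) n).2, σ n))) n, rfl, fun n => rfl⟩
  have key : ∀ n, p n ∈ (S n).1 ∧ (∀ᶠ l in atTop, p n l = none) ∧
      (∀ τ, |A τ (p n) - A τ (fun _ => none)| ≤ c / 8 - c / 8 * (1 / 2) ^ n) ∧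
      ∀ m < n, |Θ (p n) (x (Z (S m) m)) - A (σ m) (fun _ => none)| ≤
        c / 8 - c / 8 * (1 / 2) ^ n := fun n => by
    induction n with
    | zero => simp [S0, p0]
    | succ n ih =>
      obtain ⟨k1, k2, k3, k4⟩ := ih
      obtain ⟨e1, e2, e3⟩ := hZ (S n) n (fS n).1 (fS n).2 _ k1 k2 (σ n)
      rw [← p1] at e1 e2 e3
      refine ⟨?_, ?_, fun τ => ?_, fun m hm => ?_⟩
      · rw [S1, p1]
        exact ⟨(p n, σ n), ⟨k1, trivial⟩, rfl⟩
      · filter_upwards [k2, eventually_ne_atTop (Z (S n) n).1] with l h h'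
        rwa [p1, update_of_ne h']
      · have := abs_sub_le (A τ (p (n + 1))) (A τ (p n)) (A τ fun _ => none)
        rw [pow_succ]
        linarith [e2 τ, k3 τ]
      · rw [pow_succ]
        rcases (Nat.lt_succ_iff.1 hm).lt_or_eq with e | rfl
        · have := abs_sub_le (Θ (p (n + 1)) (x (Z (S m) m))) (Θ (p n) (x (Z (S m) m)))
            (A (σ m) fun _ => none)
          linarith [e3 _ (mS n m e), k4 m e]
        · have := abs_sub_le (Θ (p (m + 1)) (x (Z (S m) m))) (A (σ m) (p m))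
            (A (σ m) fun _ => none)
          linarith [k3 (σ m)]
  refine ⟨Θ (p n), hΘ _, fun i hi => ?_⟩
  have e := abs_le.1 ((key n).2.2.2 i hi)
  have : 0 < c / 8 * (1 / 2 : ℝ) ^ n := by positivity
  constructor <;> intro s <;> rw [s] at e <;> linarith [e.1, e.2]

end Pool.Agent.H.MP_36cdb9
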