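import Pool.Agent.H.MP_36cdb9.B

set_option autoImplicit false
open Set Filter Topology Function

namespace Pool.Agent.H.MP_36cdb9

section
variable {Y : Type} [NormedAddCommGroup Y] [NormedSpace ℝ Y]
variable {α : ℕ → Type} [∀ l, Fintype (α l)]

noncomputable def Rp (w : ∀ l, α l → ℝ) (mv : ∀ l, α l → Y → Y) :
    ℕ → (∀ l, Option (α l)) → Y → Y
  | 0, _, t => t
  | k + 1, p, t => (p k).elim (∑ a, w k a • Rp w mv k p (mv k a t)) fun a => Rp w mv k p (mv k a t)

variable {w : ∀ l, α l → ℝ} {mv : ∀ l, α l → Y → Y}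

theorem Rp_ind (k : ℕ) {p q : ∀ l, Option (α l)} (h : ∀ l < k, p l = q l) (t : Y) :
    Rp w mv k p t = Rp w mv k q t := by
  induction k generalizing t with
  | zero => rfl
  | succ k ih =>
    simp only [Rp, h k k.lt_succ_self, ih fun l hl => h l (hl.trans k.lt_succ_self)]

theorem Rp_harm (h1 : ∀ l, ∑ a, w l a = 1) (k : ℕ) {p : ∀ l, Option (α l)} {l : ℕ}
    (h : p l = none) (t : Y) :
    Rp w mv k p t = ∑ a, w l a • Rp w mv k (update p l (some a)) t := by
  induction k generalizing t with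
  | zero => simp [Rp, ← Finset.sum_smul, h1]
  | succ k ih =>
    by_cases e : l = k
    · subst e
      simp only [Rp, h, update_self, Option.elim]
      exact Finset.sum_congr rfl fun a _ => by
        rw [Rp_ind l (p := p) (q := update p l (some a)) fun m hm => (update_of_ne hm.ne _ _).symm]
    · simp only [Rp, update_of_ne (Ne.symm e)]
      cases p k with
      | none =>
        simp only [Option.elim, Finset.smul_sum]
        rw [Finset.sum_comm]
        refine Finset.sum_congr rfl fun b _ => ?_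
        rw [ih, Finset.smul_sum]
        exact Finset.sum_congr rfl fun a _ => smul_comm _ _ _
      | some b => exact ih _

theorem Rp_mem (h0 : ∀ l a, 0 ≤ w l a) (h1 : ∀ l, ∑ a, w l a = 1) {C : ℕ → Set Y}
    (hC : ∀ l a, ∀ t ∈ C (l + 1), mv l a t ∈ C l) {B : Set Y} (hB : Convex ℝ B)
    {p : ∀ l, Option (α l)} {m : ℕ} (h : ∀ t ∈ C m, Rp w mv m p t ∈ B) {k : ℕ} (hk : m ≤ k) :
    ∀ t ∈ C k, Rp w mv k p t ∈ B := by
  induction k, hk using Nat.le_induction with
  | base => exact h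
  | succ k _ ih =>
    intro t ht
    rw [Rp]
    cases p k with
    | none => exact hB.sum_mem (fun a _ => h0 k a) (h1 k) fun a _ => ih _ (hC k a t ht)
    | some b => exact ih _ (hC k b t ht)

theorem Rp_free (h0 : ∀ l a, 0 ≤ w l a) (h1 : ∀ l, ∑ a, w l a = 1) {C : ℕ → Set Y}
    (hC : ∀ l a, ∀ t ∈ C (l + 1), mv l a t ∈ C l) {η : ℕ → ℝ}
    (hη : ∀ l, ∀ t ∈ C (l + 1), ‖∑ a, w l a • mv l a t - t‖ ≤ η l)
    {p : ∀ l, Option (α l)} (k : ℕ) (hp : ∀ l < k, p l = none) :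
    ∀ t ∈ C k, ‖Rp w mv k p t - t‖ ≤ ∑ l ∈ Finset.range k, η l := by
  induction k with
  | zero => simp [Rp]
  | succ k ih =>
    intro t ht
    have e : ∑ a, w k a • (Rp w mv k p (mv k a t) - mv k a t) ∈
        Metric.closedBall (0 : Y) (∑ l ∈ Finset.range k, η l) :=
      (convex_closedBall _ _).sum_mem (fun a _ => h0 k a) (h1 k) fun a _ =>
        mem_closedBall_zero_iff.2 (ih (fun l hl => hp l (hl.trans k.lt_succ_self)) _ (hC k a t ht))
    simp only [mem_closedBall_zero_iff, smul_sub, Finset.sum_sub_distrib] at e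
    rw [Rp, hp k k.lt_succ_self, Finset.sum_range_succ]
    exact (norm_sub_le_norm_sub_add_norm_sub _ _ _).trans (add_le_add e (hη k t ht))

end

variable {X : Type} [NormedAddCommGroup X] [NormedSpace ℝ X]

theorem wlim {J : Type} (U : Ultrafilter J) {R : ℝ} (u : J → X →L[ℝ] ℝ) (h : ∀ j, ‖u j‖ ≤ R) :
    ∃ φ : X →L[ℝ] ℝ, ‖φ‖ ≤ R ∧ ∀ x, Tendsto (fun j => u j x) U (𝓝 (φ x)) := by
  obtain ⟨φ, h1, h2⟩ := (WeakDual.isCompact_closedBall (𝕜 := ℝ) (E := X) 0 R).ultrafilter_le_nhds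
    (U.map fun j => StrongDual.toWeakDual (u j))
    (le_principal_iff.2 (mem_map.2 (univ_mem' fun j => mem_closedBall_zero_iff.2 (h j))))
  exact ⟨WeakDual.toStrongDual φ, mem_closedBall_zero_iff.1 h1, fun x =>
    ((WeakDual.eval_continuous x).tendsto φ).comp h2⟩

theorem stars [CompleteSpace X] {ι : ℕ → Type} [∀ l, Fintype (ι l)] {v : ∀ l, ι l → ℝ}
    (h0 : ∀ l a, 0 ≤ v l a) (h1 : ∀ l, ∑ a, v l a = 1) {C : ℕ → Set (X →L[ℝ] ℝ)} {R γ : ℝ}
    (hR : 0 < R) (hγ : 0 < γ) (ne : ∀ l, (C l).Nonempty) (hC : ∀ l, C (l + 1) ⊆ C l)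
    (bd : ∀ t ∈ C 0, ‖t‖ ≤ R) {x : ∀ l, ι l → X} (hx : ∀ l i, ‖x l i‖ ≤ 1) {β : ∀ l, ι l → ℝ}
    (h : ∀ l, ∀ t ∈ C (l + 1), (∀ i, t (x l i) ≤ β l i) ∧ ∃ s : ι l → X →L[ℝ] ℝ,
      (∀ i, s i ∈ C l ∧ β l i + γ ≤ s i (x l i)) ∧ ‖∑ i, v l i • s i - t‖ ≤ γ / 8 * (1 / 2) ^ l) :
    ∃ T : (lp (fun _ : ℕ => ℝ) 1) →L[ℝ] X, ∃ c : ℝ, 0 < c ∧ ∀ a, c * ‖a‖ ≤ ‖T a‖ := by
  choose h2 s h3 h4 using h
  choose t0 ht using ne
  classical
  obtain ⟨mv, m1, m2⟩ : ∃ mv : ∀ l, ι l × Bool → (X →L[ℝ] ℝ) → X →L[ℝ] ℝ,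
      (∀ l i t (ht : t ∈ C (l + 1)), mv l (i, true) t = s l t ht i) ∧
      ∀ l i t, mv l (i, false) t = t :=
    ⟨fun l a t => if ht : t ∈ C (l + 1) ∧ a.2 = true then s l t ht.1 a.1 else t,
      fun l i t ht => by simp [ht], fun l i t => by simp⟩
  have mC : ∀ l a, ∀ t ∈ C (l + 1), mv l a t ∈ C l := by
    rintro l ⟨i, _ | _⟩ t ht
    · rw [m2]; exact hC l ht
    · rw [m1 l i t ht]; exact (h3 l t ht i).1
  have mη : ∀ l, ∀ t ∈ C (l + 1), ‖∑ a, hw v l a • mv l a t - t‖ ≤ γ / 8 * (1 / 2) ^ l := by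
    intro l t ht
    have e : ∑ a, hw v l a • mv l a t - t = (1 / 2 : ℝ) • (∑ i, v l i • s l t ht i - t) := by
      have e : ∀ i (f : X →L[ℝ] ℝ), (v l i / 2) • f = (1 / 2 : ℝ) • v l i • f := fun i f => by
        rw [smul_smul]; congr 1; ring
      simp only [Fintype.sum_prod_type, Fintype.sum_bool, fun i => m1 l i t ht, m2, hw, e,
        Finset.sum_add_distrib]
      simp only [← Finset.smul_sum, ← Finset.sum_smul, h1]
      module
    rw [e, norm_smul]
    have := h4 l t ht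
    have := norm_nonneg (∑ i, v l i • s l t ht i - t)
    norm_num
    linarith
  have fr : ∀ l (a : ι l × Bool), ∀ t ∈ C (l + 1),
      |Rp (hw v) mv (l + 1) (update (fun _ => none) l (some a)) t (x l a.1) - mv l a t (x l a.1)| ≤
      γ / 4 := fun l a t ht => by
    have e := Rp_free (hw0 h0) (hw1 h1) mC mη (p := update (fun _ => none) l (some a)) l
      (fun m hm => update_of_ne hm.ne _ _) _ (mC l a t ht)
    have e2 := sum_geometric_two_le l
    rw [← Finset.mul_sum] at e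
    rw [Rp, update_self]
    refine (ContinuousLinearMap.le_of_opNorm_le _ e _).trans ?_
    have := mul_le_mul e2 (hx l a.1) (norm_nonneg _) two_pos.le
    nlinarith
  let U : Ultrafilter ℕ := Ultrafilter.of atTop
  choose Θ t1 t2 using fun p : ∀ l, Option (ι l × Bool) => wlim U (R := R)
    (fun k => Rp (hw v) mv k p (t0 k)) fun k => mem_closedBall_zero_iff.1
      (Rp_mem (hw0 h0) (hw1 h1) mC (convex_closedBall 0 R) (m := 0)
        (fun t ht => mem_closedBall_zero_iff.2 (bd t ht)) k.zero_le _ (ht k))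
  have ev : ∀ l, ∀ᶠ k in U, l + 1 ≤ k := fun l =>
    (eventually_ge_atTop _).filter_mono (Ultrafilter.of_le _)
  refine toL1 h0 h1 hR (half_pos hγ) t1 (fun y p l hp => ?_) (x := fun z => x z.1 z.2)
    (fun z => hx _ _) fun ⟨l, i⟩ => ?_
  · refine tendsto_nhds_unique (t2 p y) ((tendsto_finsetSum _ fun a _ =>
      (t2 (update p l (some a)) y).const_mul (hw v l a)).congr fun k => ?_)
    rw [Rp_harm (hw1 h1) k hp]
    simp
  · have lin : IsLinearMap ℝ fun f : X →L[ℝ] ℝ => f (x l i) := ⟨fun _ _ => rfl, fun _ _ => rfl⟩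
    have a1 : Θ (update (fun _ => none) l (some (i, false))) (x l i) ≤ β l i + γ / 4 :=
      le_of_tendsto (t2 _ _) ((ev l).mono fun k hk => Rp_mem (hw0 h0) (hw1 h1) mC
        (convex_halfSpace_le lin _) (fun t ht => by
          have := (abs_le.1 (fr l (i, false) t ht)).2
          rw [m2] at this
          have := h2 l t ht i
          simp only [mem_ofPred_eq]
          linarith) hk _ (ht k))
    have a2 : β l i + 3 * γ / 4 ≤ Θ (update (fun _ => none) l (some (i, true))) (x l i) :=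
      ge_of_tendsto (t2 _ _) ((ev l).mono fun k hk => Rp_mem (hw0 h0) (hw1 h1) mC
        (convex_halfSpace_ge lin _) (fun t ht => by
          have := (abs_le.1 (fr l (i, true) t ht)).1
          rw [m1 l i t ht] at this
          have := (h3 l t ht i).2
          simp only [mem_ofPred_eq]
          linarith) hk _ (ht k))
    dsimp only
    linarith

end Pool.Agent.H.MP_36cdb9
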