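import Pool.Agent.H.MP_36cdb9.C

set_option autoImplicit false
open Set Filter Topology Function Pointwise

namespace Pool.Agent.H.MP_36cdb9

theorem baire {E J : Type} [TopologicalSpace E] [T2Space E] [Countable J] {L V : Set E}
    (hL : IsCompact L) (hV : IsOpen V) (ne : (L ∩ V).Nonempty) {F : J → Set E}
    (hF : ∀ j, IsClosed (F j)) (h : L ∩ V ⊆ ⋃ j, F j) :
    ∃ j W, IsOpen W ∧ W ⊆ V ∧ (L ∩ W).Nonempty ∧ L ∩ W ⊆ F j := by
  have := isCompact_iff_compactSpace.1 hL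
  have d := dense_iUnion_interior_of_closed (X := L)
    (f := fun j : Option J => Subtype.val ⁻¹' j.elim Vᶜ F) (fun j => by
      cases j
      exacts [hV.isClosed_compl.preimage continuous_subtype_val,
        (hF _).preimage continuous_subtype_val]) (eq_univ_of_forall fun x => by
      by_cases e : x.1 ∈ V
      · obtain ⟨j, hj⟩ := mem_iUnion.1 (h ⟨x.2, e⟩)
        exact mem_iUnion.2 ⟨some j, hj⟩
      · exact mem_iUnion.2 ⟨none, e⟩)
  obtain ⟨y, y1, y2⟩ := ne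
  obtain ⟨x, hx, x1⟩ := d.exists_mem_open (hV.preimage continuous_subtype_val) ⟨⟨y, y1⟩, y2⟩
  obtain ⟨j, hj⟩ := mem_iUnion.1 hx
  cases j with
  | none => exact (interior_subset hj x1).elim
  | some j =>
    obtain ⟨W, w1, w2⟩ := isOpen_induced_iff.1 (isOpen_interior (s := (Subtype.val ⁻¹' F j : Set L)))
    refine ⟨j, W ∩ V, w1.inter hV, inter_subset_right, ⟨x, x.2, ?_, x1⟩, fun z hz => ?_⟩
    · exact (w2 ▸ hj : x ∈ Subtype.val ⁻¹' W)
    · exact interior_subset (s := (Subtype.val ⁻¹' F j : Set L)) (a := ⟨z, hz.1⟩) (w2 ▸ hz.2.1)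

variable {E : Type} [AddCommGroup E] [Module ℝ E] [TopologicalSpace E] [IsTopologicalAddGroup E]
  [ContinuousSMul ℝ E]

theorem cpt {s t : Set E} (h1 : Convex ℝ s) (h2 : Convex ℝ t) (h3 : IsCompact s)
    (h4 : IsCompact t) : IsCompact (convexHull ℝ (s ∪ t)) := by
  rcases s.eq_empty_or_nonempty with rfl | hs
  · rwa [empty_union, h2.convexHull_eq]
  rcases t.eq_empty_or_nonempty with rfl | ht
  · rwa [union_empty, h1.convexHull_eq]
  have := ((isCompact_Icc (a := (0 : ℝ)) (b := 1)).prod (h3.prod h4)).image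
    (f := fun p => (1 - p.1) • p.2.1 + p.1 • p.2.2) (by fun_prop)
  rw [h1.convexHull_union h2 hs ht]
  refine (Set.ext fun z => ?_ : _ = convexJoin ℝ s t) ▸ this
  simp only [mem_convexJoin, segment_eq_image, mem_image, mem_prod, Prod.exists]
  exact ⟨fun ⟨a, x, y, ⟨h1, h2, h3⟩, h⟩ => ⟨x, h2, y, h3, a, h1, h⟩,
    fun ⟨x, h2, y, h3, a, h1, h⟩ => ⟨a, x, y, ⟨h1, h2, h3⟩, h⟩⟩

theorem split {C D : Set E} (c1 : IsCompact C) (c2 : Convex ℝ C) {t : E}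
    (ht : t ∈ C.extremePoints ℝ) (d1 : IsCompact D) (d2 : Convex ℝ D) (d3 : D ⊆ C) (d4 : t ∉ D)
    {r : ℝ} (r0 : 0 < r) (r1 : r < 1) : ∃ Q, IsCompact Q ∧ Convex ℝ Q ∧ Q ⊆ C ∧ t ∉ Q ∧
      ∀ A ⊆ C, Convex ℝ A → ∀ u ∈ convexHull ℝ (A ∪ D), u ∈ Q ∨
        ∃ a ∈ A, ∃ b ∈ C, ∃ θ ∈ Icc 0 r, u - a = θ • (b - a) := by
  have r2 := sub_pos.2 r1
  refine ⟨(1 - r) • C + r • D, (c1.smul _).add (d1.smul _), (c2.smul _).add (d2.smul _), ?_, ?_,
    fun A a1 a2 u hu => ?_⟩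
  · rintro _ ⟨_, ⟨a, ha, rfl⟩, _, ⟨b, hb, rfl⟩, rfl⟩
    exact c2 ha (d3 hb) r2.le r0.le (by ring)
  · rintro ⟨_, ⟨a, ha, rfl⟩, _, ⟨b, hb, rfl⟩, e⟩
    exact d4 (((mem_extremePoints.1 ht).2 a ha b (d3 hb) ⟨_, _, r2, r0, by ring, e⟩).2 ▸ hb)
  rcases A.eq_empty_or_nonempty with rfl | hs
  · rw [empty_union, d2.convexHull_eq] at hu
    exact Or.inl ⟨_, ⟨u, d3 hu, rfl⟩, _, ⟨u, hu, rfl⟩, by simp [← add_smul]⟩
  rcases D.eq_empty_or_nonempty with rfl | hd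
  · rw [union_empty, a2.convexHull_eq] at hu
    exact Or.inr ⟨u, hu, u, a1 hu, 0, ⟨le_rfl, r0.le⟩, by simp⟩
  rw [a2.convexHull_union d2 hs hd, mem_convexJoin] at hu
  obtain ⟨a, ha, b, hb, s, θ, s0, t0, e, rfl⟩ := hu
  obtain rfl : s = 1 - θ := by linarith
  rcases le_total θ r with h | h
  · exact Or.inr ⟨a, ha, b, d3 hb, θ, ⟨t0, h⟩, by module⟩
  · refine Or.inl ⟨_, ⟨((1 - θ) / (1 - r)) • a + ((θ - r) / (1 - r)) • b, c2 (a1 ha) (d3 hb)
      (div_nonneg s0 r2.le) (div_nonneg (sub_nonneg.2 h) r2.le) (by field_simp; ring), rfl⟩, _,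
      ⟨b, hb, rfl⟩, ?_⟩
    simp only [smul_add, smul_smul, mul_div_cancel₀ _ r2.ne']
    module

variable [T2Space E]

theorem baireE {J : Type} [Countable J] {C V : Set E} (c1 : IsCompact C) (φ : ℕ → E → ℝ)
    (hφ : ∀ m, Continuous (φ m)) (sp : ∀ a b, (∀ m, φ m a = φ m b) → a = b) (hV : IsOpen V)
    (ne : (C.extremePoints ℝ ∩ V).Nonempty) {G : J → Set E} (hG : ∀ j, IsClosed (G j))
    (h : C.extremePoints ℝ ∩ V ⊆ ⋃ j, G j) :
    ∃ j W, IsOpen W ∧ W ⊆ V ∧ (C.extremePoints ℝ ∩ W).Nonempty ∧ C.extremePoints ℝ ∩ W ⊆ G j := by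
  have cl : closure (C.extremePoints ℝ) ⊆ C := closure_minimal extremePoints_subset c1.isClosed
  let F : ℕ × ℕ → Set E := fun n => (fun q : ℝ × E × E => (1 - q.1) • q.2.1 + q.1 • q.2.2) ''
    (Icc (1 / (n.2 + 1 : ℝ)) (1 - 1 / (n.2 + 1)) ×ˢ C ×ˢ C ∩
      {q | 1 / (n.2 + 1 : ℝ) ≤ |φ n.1 q.2.1 - φ n.1 q.2.2|})
  obtain ⟨j, W, w1, w2, w3, w4⟩ := baire (c1.of_isClosed_subset isClosed_closure cl) hV
    (ne.mono (inter_subset_inter_left _ subset_closure)) (F := Sum.elim G F) (by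
      rintro (j | n)
      · exact hG j
      · have := hφ n.1
        exact (((isCompact_Icc.prod (c1.prod c1)).inter_right
          (isClosed_le continuous_const (by fun_prop))).image (by fun_prop)).isClosed) (by
      intro t ht
      by_cases e : t ∈ C.extremePoints ℝ
      · obtain ⟨j, hj⟩ := mem_iUnion.1 (h ⟨e, ht.2⟩)
        exact mem_iUnion.2 ⟨.inl j, hj⟩
      rw [mem_extremePoints_iff_left] at e
      push Not at e
      obtain ⟨a, ha, b, hb, ⟨s, θ, s0, t0, e1, e2⟩, e3⟩ := e (cl ht.1)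
      obtain rfl : s = 1 - θ := by linarith
      have : ∃ m, φ m a ≠ φ m b := by
        by_contra hc
        push Not at hc
        obtain rfl := sp a b hc
        exact e3 (by rw [← e2]; module)
      obtain ⟨m, hm⟩ := this
      obtain ⟨n, hn⟩ := exists_nat_one_div_lt (lt_min (lt_min t0 s0) (abs_sub_pos.2 hm))
      simp only [lt_min_iff] at hn
      exact mem_iUnion.2 ⟨.inr (m, n), (θ, a, b), ⟨⟨⟨hn.1.1.le, by linarith [hn.1.2]⟩, ha, hb⟩,
        hn.2.le⟩, e2⟩)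
  have w5 : (C.extremePoints ℝ ∩ W).Nonempty := by
    obtain ⟨t, t1, t2⟩ := w3
    exact inter_comm W _ ▸ mem_closure_iff.1 t1 W w1 t2
  cases j with
  | inl j => exact ⟨j, W, w1, w2, w5, fun t ht => w4 ⟨subset_closure ht.1, ht.2⟩⟩
  | inr n =>
    obtain ⟨t, t1, t2⟩ := w5
    obtain ⟨⟨θ, a, b⟩, ⟨⟨⟨e1, e2⟩, ha, hb⟩, e3⟩, e4⟩ := w4 ⟨subset_closure t1, t2⟩
    have p : 0 < 1 / (n.2 + 1 : ℝ) := Nat.one_div_pos_of_nat
    obtain ⟨rfl, rfl⟩ := (mem_extremePoints.1 t1).2 a ha b hb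
      ⟨1 - θ, θ, by linarith, by linarith, by ring, e4⟩
    simp only [mem_ofPred_eq, sub_self, abs_zero] at e3
    linarith

variable [LocallyConvexSpace ℝ E]

theorem mil {C S : Set E} (c1 : IsCompact C) (c2 : Convex ℝ C) {t : E}
    (ht : t ∈ C.extremePoints ℝ) (hS : IsCompact S) (h : t ∉ S) :
    ∃ D, IsCompact D ∧ Convex ℝ D ∧ D ⊆ C ∧ t ∉ D ∧ S ∩ C ⊆ D := by
  refine hS.induction_on (p := fun S => ∃ D, IsCompact D ∧ Convex ℝ D ∧ D ⊆ C ∧ t ∉ D ∧ S ∩ C ⊆ D)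
    ⟨∅, isCompact_empty, convex_empty, empty_subset _, id, by simp⟩ ?_ ?_ fun x hx => ?_
  · rintro s u h ⟨D, d1, d2, d3, d4, d5⟩
    exact ⟨D, d1, d2, d3, d4, (inter_subset_inter_left _ h).trans d5⟩
  · rintro s u ⟨D, d1, d2, d3, d4, d5⟩ ⟨Q, q1, q2, q3, q4, q5⟩
    have e := convexHull_min (union_subset d3 q3) c2
    refine ⟨_, cpt d2 q2 d1 q1, convex_convexHull _ _, e, fun hc => ?_, ?_⟩
    · exact (extremePoints_convexHull_subset
        (inter_extremePoints_subset_extremePoints_of_subset e ⟨hc, ht⟩)).elim d4 q4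
    · rw [union_inter_distrib_right]
      exact (union_subset_union d5 q5).trans (subset_convexHull _ _)
  · obtain ⟨f, hf⟩ := geometric_hahn_banach_point_point (x := x) (y := t) fun e => h (e ▸ hx)
    obtain ⟨m, m1, m2⟩ := exists_between hf
    exact ⟨{y | f y < m}, mem_nhdsWithin_of_mem_nhds
      ((isOpen_lt f.continuous continuous_const).mem_nhds m1), C ∩ {y | f y ≤ m},
      c1.inter_right (isClosed_le f.continuous continuous_const),
      c2.inter (convex_halfSpace_le f.toLinearMap.isLinear m), inter_subset_left,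
      fun e => m2.not_ge e.2, fun y hy => ⟨hy.2, (le_of_lt hy.1 : f y ≤ m)⟩⟩

theorem ext_sub {K : Set E} (hK : IsCompact K) (c1 : IsCompact (closure (convexHull ℝ K))) :
    (closure (convexHull ℝ K)).extremePoints ℝ ⊆ K := fun t ht => by
  by_contra hc
  obtain ⟨D, d1, d2, -, d4, d5⟩ := mil c1 (convex_convexHull _ _).closure ht hK hc
  exact d4 (closure_minimal (convexHull_min (fun y hy => d5 ⟨hy, subset_closure
    (subset_convexHull _ _ hy)⟩) d2) d1.isClosed ht.1)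

def CV (C V : Set E) : Set E := closure (convexHull ℝ (C.extremePoints ℝ ∩ V))

omit [LocallyConvexSpace ℝ E] [IsTopologicalAddGroup E] [ContinuousSMul ℝ E] in
theorem CV_sub {C : Set E} (c1 : IsCompact C) (c2 : Convex ℝ C) (V : Set E) : CV C V ⊆ C :=
  closure_minimal (convexHull_min (fun _ h => h.1.1) c2) c1.isClosed

theorem star {C V : Set E} (c1 : IsCompact C) (c2 : Convex ℝ C) {t : E}
    (ht : t ∈ C.extremePoints ℝ) (hV : IsOpen V) (tV : t ∈ V) (p : Seminorm ℝ E) {R ε : ℝ}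
    (R0 : 0 < R) (hε : 0 < ε) (hR : ∀ a ∈ C, ∀ b ∈ C, p (a - b) ≤ R)
    (fine : ∀ W, IsOpen W → t ∈ W → ∃ δ > 0, ∀ u, p (u - t) < δ → u ∈ W)
    (nd : ∀ δ > 0, ∃ u ∈ convexHull ℝ {u ∈ C | ε ≤ p (u - t)}, p (u - t) < δ) {η : ℝ}
    (hη : 0 < η) : ∃ u ∈ convexHull ℝ {a ∈ CV C V | ε / 2 ≤ p (a - t)}, p (u - t) < η := by
  obtain ⟨r, r0, r1, r2, r3⟩ : ∃ r : ℝ, 0 < r ∧ r < 1 ∧ r * R ≤ ε / 2 ∧ r * R ≤ η / 3 := by
    refine ⟨min (1 / 2) (min (ε / 2 / R) (η / 3 / R)), by positivity,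
      (min_le_left _ _).trans_lt (by norm_num), ?_, ?_⟩ <;> rw [← le_div_iff₀ R0]
    exacts [(min_le_right _ _).trans (min_le_left _ _), (min_le_right _ _).trans (min_le_right _ _)]
  have cl : ∀ u, ∀ a ∈ C, (∃ b ∈ C, ∃ θ ∈ Icc 0 r, u - a = θ • (b - a)) → p (u - a) ≤ r * R := by
    rintro u a ha ⟨b, hb, θ, h, e⟩
    rw [e, map_smul_eq_mul, Real.norm_of_nonneg h.1]
    exact mul_le_mul h.2 (hR b hb a ha) (apply_nonneg _ _) r0.le
  have tri : ∀ a b c, p (a - c) ≤ p (a - b) + p (b - c) := fun a b c => by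
    simpa using map_add_le_add p (a - b) (b - c)
  have v1 := CV_sub c1 c2 V
  have v2 : Convex ℝ (CV C V) := (convex_convexHull _ _).closure
  obtain ⟨D, d1, d2, d3, d4, d5⟩ := mil c1 c2 ht (c1.diff hV) fun h => h.2 tV
  have hD : C ⊆ convexHull ℝ (CV C V ∪ D) := by
    refine (closure_convexHull_extremePoints c1 c2).ge.trans (closure_minimal (convexHull_mono
      fun y hy => ?_) (cpt v2 d2 (c1.of_isClosed_subset isClosed_closure v1) d1).isClosed)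
    by_cases e : y ∈ V
    exacts [Or.inl (subset_closure (subset_convexHull _ _ ⟨hy, e⟩)), Or.inr (d5 ⟨⟨hy.1, e⟩, hy.1⟩)]
  obtain ⟨Q, q1, q2, q3, q4, q5⟩ := split c1 c2 ht d1 d2 d3 d4 r0 r1
  obtain ⟨P, p1, -, -, p4, p5⟩ := split c1 c2 ht q1 q2 q3 q4 r0 r1
  obtain ⟨δ, δ0, hδ⟩ := fine Pᶜ p1.isClosed.isOpen_compl p4
  obtain ⟨u, u1, u2⟩ := nd (min δ (η / 3)) (by positivity)
  rw [lt_min_iff] at u2
  let A : Set E := {u ∈ C | ∃ a ∈ convexHull ℝ {a ∈ CV C V | ε / 2 ≤ p (a - t)}, p (u - a) ≤ r * R}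
  have hA : Convex ℝ A := by
    rintro x ⟨x1, a, ha, x2⟩ y ⟨y1, b, hb, y2⟩ s θ s0 t0 e
    refine ⟨c2 x1 y1 s0 t0 e, _, convex_convexHull ℝ _ ha hb s0 t0 e, ?_⟩
    have := p.convexOn.2 (mem_univ (x - a)) (mem_univ (y - b)) s0 t0 e
    rw [show s • x + θ • y - (s • a + θ • b) = s • (x - a) + θ • (y - b) by module]
    simp only [smul_eq_mul] at this
    have e1 := mul_le_mul_of_nonneg_left x2 s0
    have e2 := mul_le_mul_of_nonneg_left y2 t0
    have e3 : s * (r * R) + θ * (r * R) = r * R := by rw [← add_mul, e, one_mul]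
    linarith
  obtain h | ⟨a, ⟨a1, b, hb, a2⟩, h⟩ := p5 A (fun _ h => h.1) hA u (convexHull_mono (fun y hy => by
    obtain h | ⟨a, ha, h⟩ := q5 _ v1 v2 y (hD hy.1)
    · exact Or.inr h
    · have e := cl y a (v1 ha) h
      refine Or.inl ⟨hy.1, a, subset_convexHull _ _ ⟨ha, ?_⟩, e⟩
      linarith [tri y a t, hy.2]) u1)
  · exact (hδ u u2.1 h).elim
  · refine ⟨b, hb, ?_⟩
    have e := cl u a a1 h
    rw [map_sub_rev] at e a2
    linarith [tri b a t, tri a u t, u2.2]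

end Pool.Agent.H.MP_36cdb9
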