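import Pool.Agent.H.MP_36cdb9.D

set_option autoImplicit false
open Set Filter Topology Function Pointwise

namespace Pool.Agent.H.MP_36cdb9

variable {X : Type} [NormedAddCommGroup X] [NormedSpace ℝ X]

noncomputable def pn (X : Type) [NormedAddCommGroup X] [NormedSpace ℝ X] :
    Seminorm ℝ (WeakDual ℝ X) :=
  (normSeminorm ℝ (StrongDual ℝ X)).comp WeakDual.toStrongDual.toLinearMap

theorem pn_le {f : WeakDual ℝ X} {r : ℝ} (h : 0 ≤ r) : pn X f ≤ r ↔ ∀ y, |f y| ≤ r * ‖y‖ :=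
  ⟨fun e y => (WeakDual.toStrongDual f).le_of_opNorm_le e y,
    fun e => (WeakDual.toStrongDual f).opNorm_le_bound h e⟩

theorem pn_fine (t : WeakDual ℝ X) (W : Set (WeakDual ℝ X)) (h : IsOpen W) (ht : t ∈ W) :
    ∃ δ > 0, ∀ u, pn X (u - t) < δ → u ∈ W := by
  obtain ⟨δ, d, e⟩ := Metric.isOpen_iff.1 (h.preimage NormedSpace.Dual.toWeakDual_continuous)
    (WeakDual.toStrongDual t) ht
  exact ⟨δ, d, fun u hu => e (a := WeakDual.toStrongDual u) (mem_ball_iff_norm.2 hu)⟩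

def GG (C B : Set (WeakDual ℝ X)) (γ η : ℝ) {N : ℕ} (v : Fin N → ℝ) (x : Fin N → X)
    (β : Fin N → ℝ) : Set (WeakDual ℝ X) :=
  {t ∈ C | (∀ i, t (x i) ≤ β i) ∧ ∃ s : Fin N → WeakDual ℝ X,
    (∀ i, s i ∈ B ∧ β i + γ ≤ s i (x i)) ∧ pn X (∑ i, v i • s i - t) ≤ η}

theorem GG_closed {C B : Set (WeakDual ℝ X)} (c1 : IsCompact C) (b1 : IsCompact B) (γ : ℝ) {η : ℝ}
    (hη : 0 ≤ η) {N : ℕ} (v : Fin N → ℝ) (x : Fin N → X) (β : Fin N → ℝ) :
    IsClosed (GG C B γ η v x β) := by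
  have ev := WeakDual.eval_continuous (𝕜 := ℝ) (E := X)
  have := ((c1.prod (isCompact_univ_pi fun _ : Fin N => b1)).inter_right
    (t := {q | (∀ i, q.1 (x i) ≤ β i ∧ β i + γ ≤ q.2 i (x i)) ∧
      ∀ y, |(∑ i, v i • q.2 i - q.1) y| ≤ η * ‖y‖}) (by
    simp only [ofPred_and, ofPred_forall]
    exact (isClosed_iInter fun i => (isClosed_le ((ev _).comp continuous_fst) continuous_const).inter
      (isClosed_le continuous_const ((ev _).comp (by fun_prop)))).inter (isClosed_iInter fun y =>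
      isClosed_le ((ev _).comp (by fun_prop)).abs continuous_const))).image continuous_fst
  refine (Set.ext fun t => ?_ : _ = GG C B γ η v x β) ▸ this.isClosed
  exact ⟨fun ⟨q, ⟨⟨h1, h2⟩, h3, h4⟩, e⟩ => e ▸ ⟨h1, fun i => (h3 i).1, q.2,
    fun i => ⟨h2 i trivial, (h3 i).2⟩, (pn_le hη).2 h4⟩, fun ⟨h1, h2, s, h3, h4⟩ =>
    ⟨(t, s), ⟨⟨h1, fun i _ => (h3 i).1⟩, fun i => ⟨h2 i, (h3 i).2⟩, (pn_le hη).1 h4⟩, rfl⟩⟩

theorem GG_convex {C B : Set (WeakDual ℝ X)} (c2 : Convex ℝ C) (b2 : Convex ℝ B) (γ η : ℝ)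
    {N : ℕ} (v : Fin N → ℝ) (x : Fin N → X) (β : Fin N → ℝ) : Convex ℝ (GG C B γ η v x β) := by
  rintro t ⟨t1, t2, s, t3, t4⟩ u ⟨u1, u2, r, u3, u4⟩ a b a0 b0 e
  have k : ∀ {c d m : ℝ}, c ≤ m → d ≤ m → a * c + b * d ≤ m := fun {c d m} h h' => by
    have e1 := mul_le_mul_of_nonneg_left h a0
    have e2 := mul_le_mul_of_nonneg_left h' b0
    have e3 : a * m + b * m = m := by rw [← add_mul, e, one_mul]
    linarith
  refine ⟨c2 t1 u1 a0 b0 e, fun i => k (t2 i) (u2 i), fun i => a • s i + b • r i,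
    fun i => ⟨b2 (t3 i).1 (u3 i).1 a0 b0 e, ?_⟩, ?_⟩
  · have := k (neg_le_neg (t3 i).2) (neg_le_neg (u3 i).2)
    change _ ≤ a * s i (x i) + b * r i (x i)
    linarith
  · rw [show ∑ i, v i • (a • s i + b • r i) - (a • t + b • u) =
      a • (∑ i, v i • s i - t) + b • (∑ i, v i • r i - u) by
        simp only [smul_add, Finset.sum_add_distrib, smul_comm (v _), ← Finset.smul_sum]
        module]
    exact ((pn X).convexOn.2 (mem_univ _) (mem_univ _) a0 b0 e).trans (k t4 u4)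

theorem step [TopologicalSpace.SeparableSpace X] {C V : Set (WeakDual ℝ X)} (c1 : IsCompact C)
    (c2 : Convex ℝ C) {R ε η : ℝ} (R0 : 0 < R) (hε : 0 < ε) (hη : 0 < η)
    (hR : ∀ a ∈ C, ∀ b ∈ C, pn X (a - b) ≤ R) (nd : ∀ t ∈ C.extremePoints ℝ, ∀ δ > 0,
      ∃ u ∈ convexHull ℝ {u ∈ C | ε ≤ pn X (u - t)}, pn X (u - t) < δ) (hV : IsOpen V)
    (ne : (C.extremePoints ℝ ∩ V).Nonempty) : ∃ (N : ℕ) (v : Fin N → ℝ) (x : Fin N → X)
      (β : Fin N → ℝ) (W : Set (WeakDual ℝ X)), (∀ i, 0 ≤ v i) ∧ ∑ i, v i = 1 ∧ (∀ i, ‖x i‖ ≤ 1) ∧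
      IsOpen W ∧ W ⊆ V ∧ (C.extremePoints ℝ ∩ W).Nonempty ∧
      CV C W ⊆ GG C (CV C V) (ε / 4) η v x β := by
  have := (WeakDual.withSeminorms ℝ X).toLocallyConvexSpace
  have := UniformSpace.secondCountable_of_separable X
  let P := fun N : ℕ => {q : (Fin N → ℝ) × (Fin N → X) × (Fin N → ℝ) //
    (∀ i, 0 ≤ q.1 i) ∧ ∑ i, q.1 i = 1 ∧ ∀ i, ‖q.2.1 i‖ ≤ 1}
  choose D d1 d2 using fun N => TopologicalSpace.exists_countable_dense (P N)
  have := fun N => (d1 N).to_subtype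
  have b1 : IsCompact (CV C V) := c1.of_isClosed_subset isClosed_closure (CV_sub c1 c2 V)
  obtain ⟨e, he⟩ := TopologicalSpace.exists_dense_seq X
  obtain ⟨⟨N, q, hq⟩, W, w1, w2, w3, w4⟩ := baireE c1 (fun m f => f (e m))
    (fun m => WeakDual.eval_continuous _) (fun a b h => DFunLike.coe_injective
      (he.equalizer (map_continuous a) (map_continuous b) (funext h))) hV ne
    (G := fun j : Σ N, D N => GG C (CV C V) (ε / 4) η j.2.1.1.1 j.2.1.1.2.1 j.2.1.1.2.2)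
    (fun j => GG_closed c1 b1 _ hη.le _ _ _) (by
    intro t ht
    obtain ⟨u, u1, u2⟩ := star c1 c2 ht.1 hV ht.2 (pn X) R0 hε hR (pn_fine t) (nd t ht.1) hη
    obtain ⟨ι, _, w, z, w0, w1, hz, rfl⟩ := mem_convexHull_iff_exists_fintype.1 u1
    let f := (Fintype.equivFin ι).symm
    have : ∀ i, ∃ x : X, ‖x‖ ≤ 1 ∧ ∃ β, t x < β ∧ β + ε / 4 < z i x := fun i => by
      obtain ⟨x, x1, x2⟩ := (WeakDual.toStrongDual (z i - t)).exists_lt_apply_of_lt_opNorm
        (r := ε / 4) (lt_of_lt_of_le (by linarith) (hz i).2)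
      change _ < |z i x - t x| at x2
      rcases lt_abs.1 x2 with h | h
      · exact ⟨x, x1.le, (t x + z i x - ε / 4) / 2, by linarith, by linarith⟩
      · refine ⟨-x, by simpa using x1.le, (-t x - z i x - ε / 4) / 2, ?_, ?_⟩ <;> rw [map_neg] <;>
          linarith
    choose x x1 β x2 x3 using this
    obtain ⟨q, q1, q2, q3⟩ := (d2 (Fintype.card ι)).exists_mem_open (U := {q |
      (∀ i, t (q.1.2.1 i) < q.1.2.2 i ∧ q.1.2.2 i + ε / 4 < z (f i) (q.1.2.1 i)) ∧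
        ‖∑ i, q.1.1 i • WeakDual.toStrongDual (z (f i)) - WeakDual.toStrongDual t‖ < η}) (by
        simp only [ofPred_and, ofPred_forall]
        exact (isOpen_iInter_of_finite fun i => (isOpen_lt ((map_continuous t).comp (by fun_prop))
          (by fun_prop)).inter (isOpen_lt (by fun_prop) ((map_continuous _).comp
          (by fun_prop)))).inter (isOpen_lt (by fun_prop) continuous_const))
      ⟨⟨(w ∘ f, x ∘ f, β ∘ f), fun i => w0 _, (f.sum_comp w).trans w1, fun i => x1 _⟩,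
        fun i => ⟨x2 _, x3 _⟩, by
        rw [← f.sum_comp] at u2
        exact u2⟩
    exact mem_iUnion.2 ⟨⟨_, q, q1⟩, ht.1.1, fun i => (q2 i).1.le, z ∘ f,
      fun i => ⟨(hz _).1, (q2 i).2.le⟩, q3.le⟩)
  exact ⟨N, _, _, _, W, q.2.1, q.2.2.1, q.2.2.2, w1, w2, w3, closure_minimal (convexHull_min w4
    (GG_convex c2 (convex_convexHull _ _).closure _ _ _ _ _)) (GG_closed c1 b1 _ hη.le _ _ _)⟩

theorem main [CompleteSpace X] [TopologicalSpace.SeparableSpace X] {K : Set (WeakDual ℝ X)}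
    (hK : IsCompact K) (ne : K.Nonempty) {ε : ℝ} (hε : 0 < ε) (nd : ∀ t ∈ K, ∀ δ > 0,
      ∃ u ∈ convexHull ℝ {u ∈ K | ε ≤ pn X (u - t)}, pn X (u - t) < δ) :
    ∃ T : (lp (fun _ : ℕ => ℝ) 1) →L[ℝ] X, ∃ c : ℝ, 0 < c ∧ ∀ a, c * ‖a‖ ≤ ‖T a‖ := by
  have := (WeakDual.withSeminorms ℝ X).toLocallyConvexSpace
  obtain ⟨R', hR'⟩ := banach_steinhaus (g := fun k : K => WeakDual.toStrongDual k.1) fun x => by
    obtain ⟨c, hc⟩ := (hK.image (WeakDual.eval_continuous x)).isBounded.exists_norm_le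
    exact ⟨c, fun k => hc _ ⟨k, k.2, rfl⟩⟩
  obtain ⟨R, R0, hR⟩ : ∃ R > 0, ∀ k ∈ K, pn X k ≤ R :=
    ⟨max R' 1, by positivity, fun k hk => (hR' ⟨k, hk⟩).trans (le_max_left _ _)⟩
  have b1 := WeakDual.isCompact_closedBall (𝕜 := ℝ) (E := X) 0 R
  have b2 : closure (convexHull ℝ K) ⊆ WeakDual.toStrongDual ⁻¹' Metric.closedBall 0 R :=
    closure_minimal (convexHull_min (fun k hk => mem_closedBall_zero_iff.2 (hR k hk))
      ((convex_closedBall (0 : StrongDual ℝ X) R).linear_preimage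
        WeakDual.toStrongDual.toLinearMap)) b1.isClosed
  have c1 := b1.of_isClosed_subset isClosed_closure b2
  have c3 := ext_sub hK c1
  have c4 : K ⊆ closure (convexHull ℝ K) := (subset_convexHull _ _).trans subset_closure
  have c2 := (convex_convexHull ℝ K).closure
  generalize closure (convexHull ℝ K) = C at *
  have b3 : ∀ t ∈ C, pn X t ≤ R := fun t ht => mem_closedBall_zero_iff.1 (b2 ht)
  let S := {V : Set (WeakDual ℝ X) // IsOpen V ∧ (C.extremePoints ℝ ∩ V).Nonempty}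
  choose N v x β W h1 h2 h3 h4 h5 h6 h7 using fun (V : S) (l : ℕ) => step c1 c2 (R := R + R)
    (η := ε / 4 / 8 * (1 / 2) ^ l) (by positivity) hε (by positivity)
    (fun a ha b hb => (map_sub_le_add _ _ _).trans (add_le_add (b3 a ha) (b3 b hb)))
    (fun t ht δ d => (nd t (c3 ht) δ d).imp fun u hu =>
      ⟨convexHull_mono (fun y hy => And.intro (c4 hy.1) hy.2) hu.1, hu.2⟩) V.2.1 V.2.2
  obtain ⟨V, hV⟩ : ∃ V : ℕ → S, ∀ l, (V (l + 1)).1 = W (V l) l :=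
    ⟨fun l => Nat.rec (motive := fun _ => S) ⟨univ, isOpen_univ, by
      simpa using c1.extremePoints_nonempty (ne.mono c4)⟩
      (fun l V => ⟨W V l, h4 V l, h6 V l⟩) l, fun l => rfl⟩
  have k1 : ∀ l, (CV C (V l).1).Nonempty := fun l =>
    (V l).2.2.mono ((subset_convexHull ℝ _).trans subset_closure)
  have k2 : ∀ l, CV C (V (l + 1)).1 ⊆ CV C (V l).1 := fun l =>
    closure_mono (convexHull_mono (inter_subset_inter_right _ (hV l ▸ h5 _ l)))
  have k3 : ∀ l, ∀ t ∈ CV C (V (l + 1)).1, _ := fun l t ht => (h7 (V l) l (hV l ▸ ht)).2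
  exact stars (ι := fun l => Fin (N (V l) l)) (fun l => h1 _ l) (fun l => h2 _ l)
    (C := fun l => CV (E := WeakDual ℝ X) C (V l).1) R0 (γ := ε / 4) (by positivity) k1 k2
    (fun t ht => b3 t (CV_sub c1 c2 _ ht)) (fun l => h3 _ l) (β := fun l => β (V l) l) k3

end Pool.Agent.H.MP_36cdb9
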