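import Pool.Agent.H.MP_36cdb9.E

set_option autoImplicit false
open Set Filter Topology Function Pointwise

namespace Pool.Agent.H.MP_36cdb9

variable {X : Type} [NormedAddCommGroup X] [NormedSpace ℝ X]

theorem cover [TopologicalSpace.SeparableSpace X] : ∃ (J : Type) (_ : Countable J) (N : J → ℕ)
    (v : ∀ j, Fin (N j) → ℝ) (x : ∀ j, Fin (N j) → X) (β : ∀ j, Fin (N j) → ℝ),
    (∀ j i, 0 ≤ v j i) ∧ (∀ j, ∑ i, v j i = 1) ∧ (∀ j i, ‖x j i‖ ≤ 1) ∧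
    ∀ (C B : Set (WeakDual ℝ X)) (γ η : ℝ), ∀ t ∈ C,
      ∀ u ∈ convexHull ℝ {a ∈ B | γ < pn X (a - t)}, pn X (u - t) < η →
        ∃ j, t ∈ GG C B γ η (v j) (x j) (β j) := by
  have := UniformSpace.secondCountable_of_separable X
  let P := fun N : ℕ => {q : (Fin N → ℝ) × (Fin N → X) × (Fin N → ℝ) //
    (∀ i, 0 ≤ q.1 i) ∧ ∑ i, q.1 i = 1 ∧ ∀ i, ‖q.2.1 i‖ ≤ 1}
  choose D d1 d2 using fun N => TopologicalSpace.exists_countable_dense (P N)
  have := fun N => (d1 N).to_subtype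
  refine ⟨Σ N, D N, inferInstance, fun j => j.1, fun j => j.2.1.1.1, fun j => j.2.1.1.2.1,
    fun j => j.2.1.1.2.2, fun j => j.2.1.2.1, fun j => j.2.1.2.2.1, fun j => j.2.1.2.2.2,
    fun C B γ η t ht u u1 u2 => ?_⟩
  obtain ⟨ι, _, w, z, w0, w1, hz, rfl⟩ := mem_convexHull_iff_exists_fintype.1 u1
  let f := (Fintype.equivFin ι).symm
  have : ∀ i, ∃ x : X, ‖x‖ ≤ 1 ∧ ∃ β, t x < β ∧ β + γ < z i x := fun i => by
    obtain ⟨x, x1, x2⟩ := (WeakDual.toStrongDual (z i - t)).exists_lt_apply_of_lt_opNorm (hz i).2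
    change _ < |z i x - t x| at x2
    rcases lt_abs.1 x2 with h | h
    · exact ⟨x, x1.le, (t x + z i x - γ) / 2, by linarith, by linarith⟩
    · refine ⟨-x, by simpa using x1.le, (-t x - z i x - γ) / 2, ?_, ?_⟩ <;> rw [map_neg] <;>
        linarith
  choose x x1 β x2 x3 using this
  obtain ⟨q, q1, q2, q3⟩ := (d2 (Fintype.card ι)).exists_mem_open (U := {q |
    (∀ i, t (q.1.2.1 i) < q.1.2.2 i ∧ q.1.2.2 i + γ < z (f i) (q.1.2.1 i)) ∧
      ‖∑ i, q.1.1 i • WeakDual.toStrongDual (z (f i)) - WeakDual.toStrongDual t‖ < η}) (by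
      simp only [ofPred_and, ofPred_forall]
      exact (isOpen_iInter_of_finite fun i => (isOpen_lt ((map_continuous t).comp (by fun_prop))
        (by fun_prop)).inter (isOpen_lt (by fun_prop) ((map_continuous _).comp
        (by fun_prop)))).inter (isOpen_lt (by fun_prop) continuous_const))
    ⟨⟨(w ∘ f, x ∘ f, β ∘ f), fun i => w0 _, (f.sum_comp w).trans w1, fun i => x1 _⟩,
      fun i => ⟨x2 _, x3 _⟩, by
      rw [← f.sum_comp] at u2
      exact u2⟩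
  exact ⟨⟨_, q, q1⟩, ht, fun i => (q2 i).1.le, z ∘ f, fun i => ⟨(hz _).1, (q2 i).2.le⟩, q3.le⟩

theorem deco0 [CompleteSpace X] [TopologicalSpace.SeparableSpace X]
    (h : ¬ ∃ T : (lp (fun _ : ℕ => ℝ) 1) →L[ℝ] X, ∃ c : ℝ, 0 < c ∧ ∀ a, c * ‖a‖ ≤ ‖T a‖) :
    ∃ C : ℕ → Set (WeakDual ℝ X), (∀ n, IsCompact (C n) ∧ Convex ℝ (C n)) ∧ ∀ t, ∀ ε > 0,
      ∃ n, t ∈ C n ∧ ∃ δ > 0, ∀ u ∈ convexHull ℝ {a ∈ C n | ε < pn X (a - t)},
        δ ≤ pn X (u - t) := by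
  obtain ⟨J, _, N, v, x, β, h1, h2, h3, h4⟩ := cover (X := X)
  obtain ⟨C, c0, c1⟩ : ∃ C : ℕ → ℕ → List J → Set (WeakDual ℝ X),
      (∀ R m, C R m [] = WeakDual.toStrongDual ⁻¹' Metric.closedBall 0 (R + 1)) ∧
      ∀ R m j s, C R m (j :: s) = GG (C R m s) (C R m s) (1 / (m + 1))
        (1 / (m + 1) / 8 * (1 / 2) ^ s.length) (v j) (x j) (β j) :=
    ⟨fun R m s => List.rec (motive := fun _ => Set (WeakDual ℝ X))
      (WeakDual.toStrongDual ⁻¹' Metric.closedBall 0 (R + 1)) (fun j s D => GG D D (1 / (m + 1))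
      (1 / (m + 1) / 8 * (1 / 2) ^ s.length) (v j) (x j) (β j)) s, fun _ _ => rfl,
      fun _ _ _ _ => rfl⟩
  obtain ⟨e, he⟩ := exists_surjective_nat (ℕ × ℕ × List J)
  refine ⟨fun n => C (e n).1 (e n).2.1 (e n).2.2, fun n => ?_, fun t ε hε => ?_⟩
  · dsimp only
    generalize (e n).2.2 = s
    induction s with
    | nil =>
      rw [c0]
      exact ⟨WeakDual.isCompact_closedBall _ _, (convex_closedBall (0 : StrongDual ℝ X) _
        ).linear_preimage WeakDual.toStrongDual.toLinearMap⟩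
    | cons j s ih =>
      rw [c1]
      exact ⟨ih.1.of_isClosed_subset (GG_closed ih.1 ih.1 _ (by positivity) _ _ _) fun _ h => h.1,
        GG_convex ih.2 ih.2 _ _ _ _ _⟩
  by_contra hc
  push Not at hc
  obtain ⟨R, hR⟩ := exists_nat_ge (pn X t)
  obtain ⟨m, hm⟩ := exists_nat_one_div_lt hε
  have : ∀ s : {s // t ∈ C R m s}, ∃ j, t ∈ C R m (j :: s.1) := fun ⟨s, hs⟩ => by
    obtain ⟨n, hn⟩ := he (R, m, s)
    have := hc n
    simp only [hn] at this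
    obtain ⟨u, u1, u2⟩ := this hs (1 / (m + 1) / 8 * (1 / 2) ^ s.length) (by positivity)
    simp only [c1]
    exact h4 _ _ _ _ t hs u (convexHull_mono (fun a ha => And.intro ha.1 (hm.trans ha.2)) u1) u2
  choose j hj using this
  obtain ⟨s, s0, s1⟩ : ∃ s : ℕ → {s // t ∈ C R m s}, (s 0).1 = [] ∧
      ∀ l, (s (l + 1)).1 = j (s l) :: (s l).1 :=
    ⟨fun l => Nat.rec (motive := fun _ => {s // t ∈ C R m s}) ⟨[], by
      rw [c0]; exact mem_closedBall_zero_iff.2 (hR.trans (by linarith))⟩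
      (fun _ s => ⟨_, hj s⟩) l, rfl, fun _ => rfl⟩
  have s2 : ∀ l, (s l).1.length = l := fun l => by
    induction l with
    | zero => rw [s0]; rfl
    | succ l ih => rw [s1, List.length_cons, ih]
  have k : ∀ l, ∀ u ∈ C R m (s (l + 1)).1, u ∈ GG (C R m (s l).1) (C R m (s l).1) (1 / (m + 1))
      (1 / (m + 1) / 8 * (1 / 2) ^ l) (v (j (s l))) (x (j (s l))) (β (j (s l))) :=
    fun l u hu => by rwa [s1, c1, s2] at hu
  exact h (stars (ι := fun l => Fin (N (j (s l)))) (fun l => h1 _) (fun l => h2 _)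
    (C := fun l => C R m (s l).1) (R := R + 1) (γ := 1 / (m + 1)) (by positivity) (by positivity)
    (fun l => ⟨t, (s l).2⟩) (fun l u hu => (k l u hu).1) (fun u hu => by
      rw [s0, c0] at hu
      exact mem_closedBall_zero_iff.1 hu) (fun l => h3 _) (β := fun l => β (j (s l)))
    fun l u hu => (k l u hu).2)

theorem deco [CompleteSpace X] [TopologicalSpace.SeparableSpace X]
    (h : ¬ ∃ T : (lp (fun _ : ℕ => ℝ) 1) →L[ℝ] X, ∃ c : ℝ, 0 < c ∧ ∀ a, c * ‖a‖ ≤ ‖T a‖) :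
    ∃ C : ℕ → Set (WeakDual ℝ X), (∀ n, IsCompact (C n) ∧ Convex ℝ (C n)) ∧
      ∀ t : X →L[ℝ] ℝ, ∀ ε > 0, ∃ n, t ∈ C n ∧ ∃ (f : (X →L[ℝ] ℝ) →L[ℝ] ℝ) (α : ℝ), α < f t ∧
        ∀ c : X →L[ℝ] ℝ, c ∈ C n → α < f c → ‖c - t‖ ≤ ε := by
  obtain ⟨C, h1, h2⟩ := deco0 h
  refine ⟨C, h1, fun t ε hε => (h2 t ε hε).imp fun n ⟨h3, δ, d, h4⟩ => ⟨h3, ?_⟩⟩
  obtain ⟨f, α, f1, f2⟩ := geometric_hahn_banach_closed_point (E := X →L[ℝ] ℝ) (x := t)
    (convex_convexHull ℝ {a : X →L[ℝ] ℝ | a ∈ C n ∧ ε < ‖a - t‖}).closure isClosed_closure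
    fun hc => by
      obtain ⟨u, u1, u2⟩ := Metric.mem_closure_iff.1 hc δ d
      rw [dist_comm, dist_eq_norm] at u2
      exact (h4 u u1).not_gt u2
  exact ⟨f, α, f2, fun c hc e => not_lt.1 fun e' =>
    (f1 c (subset_closure (subset_convexHull _ _ ⟨hc, e'⟩))).not_gt e⟩

end Pool.Agent.H.MP_36cdb9
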