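import Mathlib

set_option autoImplicit false
open Set Filter Topology Function Pointwise

namespace Pool.Agent.H.MP_36cdb9

variable {Y : Type} [NormedAddCommGroup Y] [NormedSpace ℝ Y]

noncomputable def SF (g : ℕ → Y → ℝ) (y : Y) : ℝ := ‖y‖ ^ 2 + ∑' j, (1 / 2) ^ j * (g j y + g j (-y))

structure Gd (g : ℕ → Y → ℝ) : Prop where
  cv : ∀ j, ConvexOn ℝ univ (g j)
  lo : ∀ j y, 0 ≤ g j y
  hi : ∀ j y, g j y ≤ 2 * (1 + ‖y‖ ^ 2)

variable {g : ℕ → Y → ℝ}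

theorem Gd.nn (h : Gd g) (y : Y) (j : ℕ) : 0 ≤ (1 / 2) ^ j * (g j y + g j (-y)) :=
  mul_nonneg (by positivity) (add_nonneg (h.lo _ _) (h.lo _ _))

theorem Gd.le (h : Gd g) (y : Y) (j : ℕ) :
    (1 / 2) ^ j * (g j y + g j (-y)) ≤ (1 / 2) ^ j * (4 * (1 + ‖y‖ ^ 2)) :=
  mul_le_mul_of_nonneg_left (by linarith [h.hi j y, norm_neg y ▸ h.hi j (-y)]) (by positivity)

theorem Gd.sm (h : Gd g) (y : Y) : Summable fun j => (1 / 2) ^ j * (g j y + g j (-y)) :=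
  (summable_geometric_two.mul_right _).of_nonneg_of_le (h.nn y) (h.le y)

omit [NormedSpace ℝ Y] in
theorem SF_neg (y : Y) : SF g (-y) = SF g y := by simp only [SF, norm_neg, neg_neg, add_comm]

theorem Gd.SF_lo (h : Gd g) (y : Y) : ‖y‖ ^ 2 ≤ SF g y :=
  le_add_of_nonneg_right (tsum_nonneg (h.nn y))

theorem Gd.SF_hi (h : Gd g) (y : Y) : SF g y ≤ 9 * (1 + ‖y‖ ^ 2) := by
  have := (h.sm y).tsum_le_tsum (h.le y) (summable_geometric_two.mul_right _)
  rw [tsum_mul_right, tsum_geometric_two] at this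
  rw [SF]
  linarith

theorem nsq : ConvexOn ℝ univ fun y : Y => ‖y‖ ^ 2 :=
  convexOn_univ_norm.pow (fun _ _ => norm_nonneg _) 2

theorem Gd.df (h : Gd g) (x y : Y) {a b : ℝ} (a0 : 0 ≤ a) (b0 : 0 ≤ b) (e : a + b = 1) (j : ℕ) :
    (1 / 2) ^ j * (a * g j x + b * g j y - g j (a • x + b • y)) ≤
      a * SF g x + b * SF g y - SF g (a • x + b • y) := by
  have k1 := fun i => (h.cv i).2 (mem_univ x) (mem_univ y) a0 b0 e
  have k2 := fun i => (h.cv i).2 (mem_univ (-x)) (mem_univ (-y)) a0 b0 e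
  have k3 := nsq.2 (mem_univ x) (mem_univ y) a0 b0 e
  simp only [smul_neg, ← neg_add, smul_eq_mul] at k1 k2 k3
  have p : ∀ i : ℕ, (0 : ℝ) ≤ (1 / 2) ^ i := fun i => by positivity
  have := le_hasSum ((((h.sm x).hasSum.mul_left a).add ((h.sm y).hasSum.mul_left b)).sub
    (h.sm (a • x + b • y)).hasSum) j fun i _ => by nlinarith [k1 i, k2 i, p i]
  simp only [SF]
  nlinarith [k2 j, p j]

theorem Gd.SF_cv (h : Gd g) : ConvexOn ℝ univ (SF g) := ⟨convex_univ, fun x _ y _ a b a0 b0 e => by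
  have := h.df x y a0 b0 e 0
  have := (h.cv 0).2 (mem_univ x) (mem_univ y) a0 b0 e
  simp only [smul_eq_mul, pow_zero] at *
  linarith⟩

theorem Gd.ray (h : Gd g) (y : Y) {τ : ℝ} (t0 : 0 ≤ τ) (t1 : τ ≤ 1) :
    SF g ((1 + τ) • y) ≤ (1 - τ) * SF g y + τ * (9 * (1 + 4 * ‖y‖ ^ 2)) := by
  have := h.SF_cv.2 (mem_univ y) (mem_univ ((2 : ℝ) • y)) (sub_nonneg.2 t1) t0 (by ring)
  rw [show (1 - τ) • y + τ • (2 : ℝ) • y = (1 + τ) • y by module] at this
  have e := h.SF_hi ((2 : ℝ) • y)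
  rw [norm_smul, Real.norm_two] at e
  simp only [smul_eq_mul] at this
  nlinarith

theorem Gd.lur (h : Gd g) (H : ∀ x, ∀ ε > 0, ∃ j, ∃ δ > 0, ∀ z,
    1 / 2 * g j x + 1 / 2 * g j z - g j ((1 / 2 : ℝ) • x + (1 / 2 : ℝ) • z) < δ → ‖z - x‖ ≤ ε) :
    ∃ N : Y → ℝ, (∃ a b : ℝ, 0 < a ∧ 0 < b ∧ ∀ f, a * ‖f‖ ≤ N f ∧ N f ≤ b * ‖f‖) ∧
      (∀ f g, N (f + g) ≤ N f + N g) ∧ (∀ (t : ℝ) f, N (t • f) = |t| * N f) ∧
      ∀ f (g : ℕ → Y), Tendsto (fun n => N (g n)) atTop (𝓝 (N f)) →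
        Tendsto (fun n => N (f + g n)) atTop (𝓝 (2 * N f)) →
        Tendsto (fun n => N (g n - f)) atTop (𝓝 0) := by
  let s := {y | SF g y ≤ 18}
  have s1 : Convex ℝ s := by simpa using h.SF_cv.convex_le 18
  have s2 : Metric.ball 0 1 ⊆ s := fun y hy => (h.SF_hi y).trans (by
    nlinarith [mem_ball_zero_iff.1 hy, norm_nonneg y])
  have s3 : s ⊆ Metric.closedBall 0 5 := fun y hy => mem_closedBall_zero_iff.2 (by
    have := (h.SF_lo y).trans hy
    nlinarith [norm_nonneg y])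
  have s4 : Absorbent ℝ s := (absorbent_ball_zero one_pos).mono s2
  have s0 : (0 : Y) ∈ s := s2 (Metric.mem_ball_self one_pos)
  have s5 : Balanced ℝ s := (balanced_iff_neg_mem s1).2 fun y hy => (SF_neg y).trans_le hy
  have n1 : ∀ y, 1 / 5 * ‖y‖ ≤ gauge s y := fun y => by
    linarith [le_gauge_of_subset_closedBall (x := y) s4 (by norm_num) s3]
  have n2 : ∀ y, gauge s y ≤ 1 * ‖y‖ := fun y => by linarith [mul_gauge_le_norm (x := y) s2]
  have n3 : ∀ (t : ℝ) y, gauge s (t • y) = |t| * gauge s y := gauge_smul s5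
  refine ⟨gauge s, ⟨1 / 5, 1, by norm_num, one_pos, fun f => ⟨n1 f, n2 f⟩⟩, gauge_add_le s1 s4, n3,
    ?_⟩
  have up : ∀ τ, 0 < τ → τ ≤ 1 → ∀ y, gauge s y < 1 + τ → SF g y ≤ 18 + τ * 909 := by
    intro τ t0 t1 y hy
    have p : 0 < 1 + τ := by linarith
    have e : (1 + τ)⁻¹ • y ∈ s := setOfPred_gauge_lt_one_subset_self s1 s0 s4 (by
      rwa [mem_ofPred_eq, n3, abs_of_pos (inv_pos.2 p), inv_mul_lt_iff₀ p, mul_one])
    have := h.ray ((1 + τ)⁻¹ • y) t0.le t1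
    rw [smul_inv_smul₀ p.ne'] at this
    have e2 := (h.SF_lo _).trans e
    have e3 := mul_le_mul_of_nonneg_left (e : SF g _ ≤ 18) (sub_nonneg.2 t1)
    nlinarith
  have dn : ∀ τ, 0 < τ → τ ≤ 1 → ∀ y, (1 + τ)⁻¹ < gauge s y → gauge s y ≤ 1 + τ →
      18 - τ * 3609 ≤ SF g y := by
    intro τ t0 t1 y hy hy'
    have p : 0 < 1 + τ := by linarith
    have e : ¬ (1 + τ) • y ∈ s := fun e => by
      have := gauge_le_one_of_mem e
      rw [n3, abs_of_pos p] at this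
      rw [inv_lt_iff_one_lt_mul₀' p] at hy
      linarith
    have := h.ray y t0.le t1
    have e1 : ‖y‖ ≤ 10 := by linarith [n1 y]
    have e2 : ‖y‖ ^ 2 ≤ 100 := by nlinarith [norm_nonneg y]
    have e3 := (sq_nonneg _).trans (h.SF_lo y)
    have e4 : 18 < SF g ((1 + τ) • y) := not_le.1 e
    nlinarith
  have key : ∀ f (z : ℕ → Y), gauge s f = 1 → Tendsto (fun n => gauge s (z n)) atTop (𝓝 1) →
      Tendsto (fun n => gauge s ((1 / 2 : ℝ) • f + (1 / 2 : ℝ) • z n)) atTop (𝓝 1) →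
      Tendsto (fun n => ‖z n - f‖) atTop (𝓝 0) := by
    intro f z h1 h2 h3
    refine tendsto_order.2 ⟨fun a ha => .of_forall fun n => ha.trans_le (norm_nonneg _),
      fun ε hε => ?_⟩
    obtain ⟨j, δ, d, hj⟩ := H f _ (half_pos hε)
    have p : (0 : ℝ) < (1 / 2) ^ j := by positivity
    obtain ⟨τ, t0, t1, t2⟩ : ∃ τ : ℝ, 0 < τ ∧ τ ≤ 1 ∧ τ * 5000 ≤ (1 / 2) ^ j * δ :=
      ⟨min 1 ((1 / 2) ^ j * δ / 5000), by positivity, min_le_left _ _,
        (le_div_iff₀ (by norm_num)).1 (min_le_right _ _)⟩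
    have q : 1 < 1 + τ := by linarith
    filter_upwards [h2.eventually (gt_mem_nhds q), h3.eventually (gt_mem_nhds q),
      h3.eventually (lt_mem_nhds (inv_lt_one_of_one_lt₀ q))] with n e1 e2 e3
    refine (hj (z n) (lt_of_mul_lt_mul_left ?_ p.le)).trans_lt (half_lt_self hε)
    refine (h.df f (z n) (by norm_num) (by norm_num) (by norm_num) j).trans_lt ?_
    linarith [up τ t0 t1 f (h1 ▸ q), up τ t0 t1 _ e1, dn τ t0 t1 _ e3 e2.le]
  intro f z h1 h2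
  rcases (gauge_nonneg (s := s) f).eq_or_lt with e | e
  · obtain rfl : f = 0 := norm_le_zero_iff.1 (by linarith [n1 f])
    simpa using h1
  have i := inv_pos.2 e
  have := (key ((gauge s f)⁻¹ • f) (fun n => (gauge s f)⁻¹ • z n)
    (by rw [n3, abs_of_pos i, inv_mul_cancel₀ e.ne']) (by
      simpa only [n3, abs_of_pos i, inv_mul_cancel₀ e.ne'] using h1.const_mul (gauge s f)⁻¹) (by
      have := h2.const_mul (1 / 2 * (gauge s f)⁻¹)
      rw [show 1 / 2 * (gauge s f)⁻¹ * (2 * gauge s f) = 1 by field_simp] at this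
      refine this.congr fun n => ?_
      rw [← smul_add, ← smul_add, smul_smul, n3, abs_of_pos (by positivity)])).const_mul (gauge s f)
  rw [mul_zero] at this
  refine squeeze_zero (fun n => gauge_nonneg _) (fun n => (n2 _).trans_eq ?_) this
  rw [← smul_sub, norm_smul, Real.norm_of_nonneg i.le, mul_inv_cancel_left₀ e.ne', one_mul]

end Pool.Agent.H.MP_36cdb9
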