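import Pool.Agent.H.MP_36cdb9.G

set_option autoImplicit false
open Set Filter Topology Function Pointwise

namespace Pool.Agent.H.MP_36cdb9

variable {Y : Type} [NormedAddCommGroup Y] [NormedSpace ℝ Y]

theorem theta (C : Set Y) {R η κ : ℝ} (R0 : 0 ≤ R) (e0 : 0 < η) (k0 : 0 < κ) (k1 : κ ≤ 1) :
    ∃ θ : Y → ℝ, ConvexOn ℝ univ θ ∧ (∀ y, 0 ≤ θ y) ∧ (∀ y, θ y ≤ 2 * (1 + ‖y‖ ^ 2)) ∧
      ∀ x ∈ C, ∀ (f : Y →L[ℝ] ℝ) (α : ℝ), ‖f‖ ≤ 1 → |α| ≤ R → ‖x‖ ≤ R → α < f x →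
        (∀ c ∈ C, α < f c → ‖c - x‖ ≤ η) → κ * (2 * R) ^ 2 < (f x - α) ^ 2 → ∃ δ > 0, ∀ z,
          1 / 2 * θ x + 1 / 2 * θ z - θ ((1 / 2 : ℝ) • x + (1 / 2 : ℝ) • z) < δ →
            ‖z - x‖ ≤ 3 * η := by
  let I := {i : (Y →L[ℝ] ℝ) × ℝ × Y // ‖i.1‖ ≤ 1 ∧ |i.2.1| ≤ R ∧ ‖i.2.2‖ ≤ R ∧
    ∀ c ∈ C, i.2.1 < i.1 c → ‖c - i.2.2‖ ≤ η}
  have : Nonempty I := ⟨⟨(0, 0, 0), by simp, by simpa, by simpa, by simp⟩⟩
  let φ : I → Y → ℝ := fun i y => max (i.1.1 y - i.1.2.1) 0 ^ 2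
  let T : I → Y → ℝ := fun i y => φ i y + κ * ‖y - i.1.2.2‖ ^ 2
  have c1 : ∀ i, ConvexOn ℝ univ (φ i) := fun i =>
    (((i.1.1.toLinearMap.convexOn convex_univ).add_const (-i.1.2.1)).sup
      (convexOn_const 0 convex_univ)).pow (fun _ _ => le_max_right _ _) 2
  have c2 : ∀ i, ConvexOn ℝ univ (T i) := fun i => (c1 i).add (by
    have := (nsq.translate_left (-i.1.2.2)).smul k0.le
    simpa [← sub_eq_add_neg] using this)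
  have b0 : ∀ (i : I) y, ‖y - i.1.2.2‖ ^ 2 ≤ (‖y‖ + R) ^ 2 := fun i y =>
    pow_le_pow_left₀ (norm_nonneg _) ((norm_sub_le _ _).trans (by linarith [i.2.2.2.1])) 2
  have b1 : ∀ i y, T i y ≤ (1 + R ^ 2) * (2 * (1 + ‖y‖ ^ 2)) := fun i y => by
    have e1 : φ i y ≤ (‖y‖ + R) ^ 2 := pow_le_pow_left₀ (le_max_right _ _) (max_le (by
      have := (le_abs_self _).trans (i.1.1.le_of_opNorm_le i.2.1 y)
      linarith [(abs_le.1 i.2.2.1).1]) (by positivity)) 2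
    have e2 := mul_le_mul k1 (b0 i y) (sq_nonneg _) one_pos.le
    simp only [T]
    nlinarith [sq_nonneg (1 - R * ‖y‖)]
  have b2 : ∀ i y, T i y ≤ ⨆ i, T i y := fun i y =>
    le_ciSup (f := fun i => T i y) ⟨_, forall_mem_range.2 fun i => b1 i y⟩ i
  have p : 0 < 1 + R ^ 2 := by positivity
  refine ⟨fun y => (1 + R ^ 2)⁻¹ * ⨆ i, T i y, ConvexOn.smul (inv_pos.2 p).le ⟨convex_univ,
    fun x _ y _ a b a0 b0 e => ciSup_le fun i => ((c2 i).2 (mem_univ x) (mem_univ y) a0 b0 e).trans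
      (add_le_add (mul_le_mul_of_nonneg_left (b2 i x) a0) (mul_le_mul_of_nonneg_left (b2 i y) b0))⟩,
    fun y => mul_nonneg (inv_pos.2 p).le (Real.iSup_nonneg fun i => by positivity),
    fun y => (inv_mul_le_iff₀ p).2 (ciSup_le fun i => b1 i y),
    fun x hx f α f1 f2 f3 f4 f5 f6 => ?_⟩
  obtain ⟨δ, d0, d1, d2⟩ : ∃ δ : ℝ, 0 < δ ∧ 4 * δ ≤ (f x - α) ^ 2 - κ * (2 * R) ^ 2 ∧
      8 * δ ≤ κ * η ^ 2 := by
    have := sub_pos.2 f6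
    exact ⟨min (((f x - α) ^ 2 - κ * (2 * R) ^ 2) / 4) (κ * η ^ 2 / 8), by positivity,
      by linarith [min_le_left (((f x - α) ^ 2 - κ * (2 * R) ^ 2) / 4) (κ * η ^ 2 / 8)],
      by linarith [min_le_right (((f x - α) ^ 2 - κ * (2 * R) ^ 2) / 4) (κ * η ^ 2 / 8)]⟩
  refine ⟨(1 + R ^ 2)⁻¹ * δ, by positivity, fun z hz => ?_⟩
  have hz : 1 / 2 * (⨆ i, T i x) + 1 / 2 * (⨆ i, T i z) -
      (⨆ i, T i ((1 / 2 : ℝ) • x + (1 / 2 : ℝ) • z)) < δ :=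
    lt_of_mul_lt_mul_left (by linarith) (inv_pos.2 p).le
  obtain ⟨i, hi⟩ := exists_lt_of_lt_ciSup (sub_lt_self
    (⨆ i, T i ((1 / 2 : ℝ) • x + (1 / 2 : ℝ) • z)) d0)
  have e1 := b2 i x
  have e2 := b2 i z
  have e3 := b2 ⟨(f, α, x), f1, f2, f3, f5⟩ x
  have e4 := (c1 i).2 (mem_univ x) (mem_univ z) (one_half_pos (α := ℝ)).le
    (one_half_pos (α := ℝ)).le (by norm_num)
  have e5 : ‖(1 / 2 : ℝ) • x + (1 / 2 : ℝ) • z - i.1.2.2‖ ≤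
      1 / 2 * ‖x - i.1.2.2‖ + 1 / 2 * ‖z - i.1.2.2‖ := by
    rw [show (1 / 2 : ℝ) • x + (1 / 2 : ℝ) • z - i.1.2.2 =
      (1 / 2 : ℝ) • (x - i.1.2.2) + (1 / 2 : ℝ) • (z - i.1.2.2) by module]
    refine (norm_add_le _ _).trans_eq ?_
    simp [norm_smul]
  have e6 := mul_le_mul_of_nonneg_left (pow_le_pow_left₀ (norm_nonneg _) e5 2) k0.le
  have e7 := mul_le_mul_of_nonneg_left ((b0 i x).trans (pow_le_pow_left₀ (by positivity)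
    (by linarith : ‖x‖ + R ≤ 2 * R) 2)) k0.le
  have e8 := mul_nonneg k0.le (sq_nonneg (‖x - i.1.2.2‖ - ‖z - i.1.2.2‖))
  simp only [T, φ, smul_eq_mul, sub_self, norm_zero, max_eq_left (sub_pos.2 f4).le]
    at e1 e2 e3 e4 hi hz
  have e9 : i.1.2.1 < i.1.1 x := by
    by_contra hc
    rw [max_eq_right (by linarith : i.1.1 x - i.1.2.1 ≤ 0)] at e1 e4
    nlinarith
  have e10 := i.2.2.2.2 x hx e9
  have e11 : (‖x - i.1.2.2‖ - ‖z - i.1.2.2‖) ^ 2 < η ^ 2 :=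
    lt_of_mul_lt_mul_left (by nlinarith) k0.le
  have e12 := (abs_lt.1 (abs_lt_of_sq_lt_sq e11 e0.le)).1
  have e13 := norm_sub_le_norm_sub_add_norm_sub z i.1.2.2 x
  rw [norm_sub_rev i.1.2.2 x] at e13
  linarith

theorem mot (C : ℕ → Set Y) (h : ∀ t, ∀ ε > 0, ∃ n, t ∈ C n ∧ ∃ (f : Y →L[ℝ] ℝ) (α : ℝ),
    α < f t ∧ ∀ c ∈ C n, α < f c → ‖c - t‖ ≤ ε) :
    ∃ N : Y → ℝ, (∃ a b : ℝ, 0 < a ∧ 0 < b ∧ ∀ f, a * ‖f‖ ≤ N f ∧ N f ≤ b * ‖f‖) ∧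
      (∀ f g, N (f + g) ≤ N f + N g) ∧ (∀ (t : ℝ) f, N (t • f) = |t| * N f) ∧
      ∀ f (g : ℕ → Y), Tendsto (fun n => N (g n)) atTop (𝓝 (N f)) →
        Tendsto (fun n => N (f + g n)) atTop (𝓝 (2 * N f)) →
        Tendsto (fun n => N (g n - f)) atTop (𝓝 0) := by
  obtain ⟨e, he⟩ := exists_surjective_nat (ℕ × ℕ × ℕ × ℕ)
  choose g g1 g2 g3 g4 using fun j => theta (C (e j).1) (R := (e j).2.1) (Nat.cast_nonneg _)
    (Nat.one_div_pos_of_nat (n := (e j).2.2.1)) (Nat.one_div_pos_of_nat (n := (e j).2.2.2))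
    (div_le_one_of_le₀ (by simp) (by positivity))
  refine Gd.lur ⟨g1, g2, g3⟩ fun x ε hε => ?_
  obtain ⟨m, hm⟩ := exists_nat_one_div_lt (div_pos hε three_pos)
  obtain ⟨n, hn, f, α, f1, f2⟩ := h x _ (Nat.one_div_pos_of_nat (n := m))
  have p : 0 < (‖f‖ + 1)⁻¹ := by positivity
  obtain ⟨R, hR⟩ := exists_nat_ge (|(‖f‖ + 1)⁻¹ * α| + ‖x‖)
  have q : (‖f‖ + 1)⁻¹ * α < ((‖f‖ + 1)⁻¹ • f) x := mul_lt_mul_of_pos_left f1 p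
  obtain ⟨k, hk⟩ := exists_nat_one_div_lt (div_pos (pow_pos (sub_pos.2 q) 2)
    (by positivity : 0 < (2 * R : ℝ) ^ 2 + 1))
  obtain ⟨j, hj⟩ := he (n, R, m, k)
  have := g4 j
  simp only [hj] at this
  obtain ⟨δ, d0, d1⟩ := this x hn ((‖f‖ + 1)⁻¹ • f) _ (by
    rw [norm_smul, Real.norm_of_nonneg p.le, inv_mul_le_iff₀ (by positivity)]
    linarith) (by linarith [norm_nonneg x]) (by linarith [abs_nonneg ((‖f‖ + 1)⁻¹ * α)]) q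
    (fun c hc e => f2 c hc (lt_of_mul_lt_mul_left e p.le)) (by
      rw [lt_div_iff₀ (by positivity)] at hk
      have : (0 : ℝ) < 1 / (k + 1) := Nat.one_div_pos_of_nat
      nlinarith)
  exact ⟨j, δ, d0, fun z hz => (d1 z hz).trans (by linarith)⟩

end Pool.Agent.H.MP_36cdb9
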