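import Pool.Agent.H.MP_36cdb9.F
import Pool.Agent.H.MP_36cdb9.G

set_option autoImplicit false
open Set Filter Topology Function Pointwise Metric

namespace Pool.Agent.H.MP_36cdb9

theorem cv_dist {Y : Type} [NormedAddCommGroup Y] [NormedSpace ℝ Y] {C : Set Y} (h : Convex ℝ C) :
    ConvexOn ℝ univ fun y => infDist y C := by
  refine ⟨convex_univ, fun x _ y _ a b a0 b0 e => ?_⟩
  rcases C.eq_empty_or_nonempty with rfl | ne
  · simp
  refine le_of_forall_pos_le_add fun ε hε => ?_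
  obtain ⟨u, u1, u2⟩ := (infDist_lt_iff ne).1 (lt_add_of_pos_right (infDist x C) hε)
  obtain ⟨v, v1, v2⟩ := (infDist_lt_iff ne).1 (lt_add_of_pos_right (infDist y C) hε)
  refine (infDist_le_dist_of_mem (h u1 v1 a0 b0 e)).trans ?_
  rw [dist_eq_norm] at *
  rw [show a • x + b • y - (a • u + b • v) = a • (x - u) + b • (y - v) by module]
  refine (norm_add_le _ _).trans ?_
  rw [norm_smul, norm_smul, Real.norm_of_nonneg a0, Real.norm_of_nonneg b0]
  have e1 := mul_le_mul_of_nonneg_left u2.le a0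
  have e2 := mul_le_mul_of_nonneg_left v2.le b0
  have e3 : a * ε + b * ε = ε := by rw [← add_mul, e, one_mul]
  simp only [smul_eq_mul]
  linarith

variable {X : Type} [NormedAddCommGroup X] [NormedSpace ℝ X]

theorem sep {K : Set (WeakDual ℝ X)} (h1 : Convex ℝ K) (h2 : IsClosed K) {f : WeakDual ℝ X}
    (h : f ∉ K) : ∃ x : X, ∃ u, (∀ ψ ∈ K, ψ x < u) ∧ u < f x := by
  have := (WeakDual.withSeminorms ℝ X).toLocallyConvexSpace
  obtain ⟨l, u, h3, h4⟩ := geometric_hahn_banach_closed_point h1 h2 h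
  obtain ⟨x, rfl⟩ := LinearMap.dualEmbedding_surjective (topDualPairing ℝ X) l
  exact ⟨x, u, h3, h4⟩

def Ls (g : (X →L[ℝ] ℝ) → ℝ) : Prop := LowerSemicontinuous fun y : WeakDual ℝ X => g y

theorem Ls.mul {g : (X →L[ℝ] ℝ) → ℝ} (h : Ls g) {a : ℝ} (ha : 0 ≤ a) : Ls fun y => a * g y :=
  (continuous_const_mul a).comp_lowerSemicontinuous h (monotone_mul_left_of_nonneg ha)

theorem Ls.sq {g : (X →L[ℝ] ℝ) → ℝ} (h : Ls g) (h0 : ∀ y, 0 ≤ g y) : Ls fun y => g y ^ 2 := by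
  have := Continuous.comp_lowerSemicontinuous (g := fun t : ℝ => max t 0 ^ 2) (by fun_prop) h
    fun a b e => pow_le_pow_left₀ (le_max_right _ _) (max_le_max_right _ e) 2
  simp only [comp_def, max_eq_left (h0 _)] at this
  exact this

theorem ls_dist {C : Set (WeakDual ℝ X)} (h : IsCompact C) :
    Ls fun y => infDist (α := X →L[ℝ] ℝ) y C := by
  rcases C.eq_empty_or_nonempty with rfl | ne
  · have : (fun y : X →L[ℝ] ℝ => infDist y ∅) = fun _ => 0 := funext fun y => infDist_empty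
    exact this ▸ lowerSemicontinuous_const
  refine lowerSemicontinuous_iff_isClosed_preimage.2 fun r => ?_
  have : ∀ s, IsClosed (C + WeakDual.toStrongDual ⁻¹' closedBall 0 s) := fun s =>
    (h.add (WeakDual.isCompact_closedBall 0 s)).isClosed
  convert isClosed_biInter fun s (_ : s ∈ Ioi r) => this s using 1
  ext y
  simp only [mem_iInter, mem_preimage, mem_Iic]
  symm
  refine ⟨fun H => le_of_forall_gt_imp_ge_of_dense fun s hs => ?_, fun H s hs => ?_⟩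
  · obtain ⟨c, hc, d, hd, rfl⟩ := H s hs
    refine (infDist_le_dist_of_mem (α := X →L[ℝ] ℝ) hc).trans ?_
    rw [dist_eq_norm]
    exact (congrArg norm (add_sub_cancel_left (G := X →L[ℝ] ℝ) c d)).trans_le
      (mem_closedBall_zero_iff.1 hd)
  · obtain ⟨c, hc, e⟩ := (infDist_lt_iff (α := X →L[ℝ] ℝ) ne).1 (H.trans_lt hs)
    rw [dist_eq_norm] at e
    exact ⟨c, hc, y - StrongDual.toWeakDual c, mem_closedBall_zero_iff.2 e.le,
      add_sub_cancel (G := WeakDual ℝ X) _ _⟩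

theorem Gd.ls {g : ℕ → (X →L[ℝ] ℝ) → ℝ} (h : Gd g) (hg : ∀ j, Ls (g j)) : Ls (SF g) := by
  have e0 : Ls fun y : X →L[ℝ] ℝ => ‖y‖ := lowerSemicontinuous_iff_isClosed_preimage.2 fun r => by
    convert WeakDual.isClosed_closedBall (𝕜 := ℝ) (E := X) 0 r using 1
    exact Set.ext fun y => mem_closedBall_zero_iff.symm
  refine LowerSemicontinuous.add (e0.sq fun _ => norm_nonneg _) fun y t ht => ?_
  obtain ⟨n, hn⟩ := ((h.sm y).hasSum.tendsto_sum_nat.eventually (lt_mem_nhds ht)).exists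
  filter_upwards [lowerSemicontinuous_sum (a := Finset.range n) (fun j _ => Ls.mul
    (g := fun y => g j y + g j (-y)) ((hg j).add ((hg j).comp (continuous_neg (G := WeakDual ℝ X))))
    (a := (1 / 2) ^ j) (by positivity)) y t hn] with z hz
  exact hz.trans_le ((h.sm z).sum_le_tsum _ fun j _ => h.nn z j)

theorem wnb {f : WeakDual ℝ X} {W : Set (WeakDual ℝ X)} (h : W ∈ 𝓝 f) :
    ∃ (F : Finset ((X →L[ℝ] ℝ) →L[ℝ] ℝ)) (δ : ℝ), 0 < δ ∧ ∀ g : X →L[ℝ] ℝ,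
      (∀ φ ∈ F, |φ (g - WeakDual.toStrongDual f)| < δ) → g ∈ W := by
  classical
  obtain ⟨s, r, r0, e⟩ := ((WeakDual.withSeminorms ℝ X).mem_nhds_iff f W).1 h
  exact ⟨s.image (NormedSpace.inclusionInDoubleDual ℝ X), r, r0, fun g hg => e
    (Seminorm.finset_sup_apply_lt r0 fun x hx => hg _ (Finset.mem_image_of_mem _ hx))⟩

theorem Gd.dual {g : ℕ → (X →L[ℝ] ℝ) → ℝ} (h : Gd g) (hg : ∀ j, Ls (g j)) :
    ∃ N : X → ℝ, (∀ x y, N (x + y) ≤ N x + N y) ∧ (∀ (r : ℝ) (x : X), N (r • x) = |r| * N x) ∧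
      (∃ c C : ℝ, 0 < c ∧ ∀ x, c * ‖x‖ ≤ N x ∧ N x ≤ C * ‖x‖) ∧
      (∀ f : X →L[ℝ] ℝ, (∀ x, f x ≤ N x) → SF g f ≤ 18) ∧
      ∀ f : X →L[ℝ] ℝ, (∀ ε : ℝ, 0 < ε → ∃ x, N x ≤ 1 ∧ 1 - ε < f x) → 18 ≤ SF g f := by
  let s := {y | SF g y ≤ 18}
  have s1 : Convex ℝ s := by simpa using h.SF_cv.convex_le 18
  have s2 : ∀ y, ‖y‖ ≤ 1 → y ∈ s := fun y hy => (h.SF_hi y).trans (by nlinarith [norm_nonneg y])
  have s3 : ∀ y ∈ s, ‖y‖ ≤ 5 := fun y hy => by
    have := (h.SF_lo y).trans hy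
    nlinarith [norm_nonneg y]
  have : Nonempty s := ⟨⟨0, s2 0 (by simp)⟩⟩
  have b1 : ∀ (f : s) x, |f.1 x| ≤ 5 * ‖x‖ := fun f x => f.1.le_of_opNorm_le (s3 _ f.2) x
  have b2 : ∀ f ∈ s, ∀ x, |f x| ≤ ⨆ f : s, |f.1 x| := fun f hf x =>
    le_ciSup (f := fun f : s => |f.1 x|) ⟨_, forall_mem_range.2 fun f => b1 f x⟩ ⟨f, hf⟩
  refine ⟨fun x => ⨆ f : s, |f.1 x|, fun x y => ciSup_le fun f => ?_, fun r x => ?_,
    ⟨1, 5, one_pos, fun x => ⟨?_, ciSup_le fun f => b1 f x⟩⟩, fun f hf => ?_, fun f hf => ?_⟩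
  · rw [map_add]
    exact (abs_add_le _ _).trans (add_le_add (b2 _ f.2 x) (b2 _ f.2 y))
  · simp only [map_smul, smul_eq_mul, abs_mul, Real.mul_iSup_of_nonneg (abs_nonneg r)]
  · obtain ⟨f, f1, f2⟩ := exists_dual_vector'' ℝ x
    have := (le_abs_self _).trans (b2 f (s2 f f1) x)
    rw [f2] at this
    simpa using this
  · by_contra hc
    obtain ⟨x, u, h1, h2⟩ := sep (K := s) s1 ((h.ls hg).isClosed_preimage 18) (f := f) hc
    refine ((hf x).trans (ciSup_le fun k => abs_le.2 ⟨?_, (h1 _ k.2).le⟩)).not_gt h2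
    have := h1 (-k.1 :) ((SF_neg _).trans_le k.2)
    change -k.1 x < u at this
    linarith
  · by_contra hc
    have e := sub_pos.2 (not_le.1 hc)
    obtain ⟨τ, t0, t1, t2⟩ : ∃ τ : ℝ, 0 < τ ∧ τ ≤ 1 ∧
        τ * (9 * (1 + 4 * ‖f‖ ^ 2)) ≤ 18 - SF g f :=
      ⟨min 1 ((18 - SF g f) / (9 * (1 + 4 * ‖f‖ ^ 2))), by positivity, min_le_left _ _,
        (le_div_iff₀ (by positivity)).1 (min_le_right _ _)⟩
    have e1 := h.ray f t0.le t1
    have e2 := mul_nonneg t0.le ((sq_nonneg _).trans (h.SF_lo f))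
    obtain ⟨x, x1, x2⟩ := hf (τ / (1 + τ)) (by positivity)
    have e3 := (le_abs_self _).trans ((b2 ((1 + τ) • f) (by
      change SF g _ ≤ 18; linarith) x).trans x1)
    rw [sub_lt_comm, lt_div_iff₀ (by positivity)] at x2
    change (1 + τ) * f x ≤ 1 at e3
    linarith

theorem alur [CompleteSpace X] [TopologicalSpace.SeparableSpace X]
    (h : ¬ ∃ T : (lp (fun _ : ℕ => ℝ) 1) →L[ℝ] X, ∃ c : ℝ, 0 < c ∧ ∀ a, c * ‖a‖ ≤ ‖T a‖) :
    ∃ N : X → ℝ, (∀ x y, N (x + y) ≤ N x + N y) ∧ (∀ (r : ℝ) (x : X), N (r • x) = |r| * N x) ∧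
      (∃ c C : ℝ, 0 < c ∧ ∀ x, c * ‖x‖ ≤ N x ∧ N x ≤ C * ‖x‖) ∧
      ∀ f : X →L[ℝ] ℝ, (∀ x, f x ≤ N x) → (∀ ε : ℝ, 0 < ε → ∃ x, N x ≤ 1 ∧ 1 - ε < f x) →
        (f ∈ Set.extremePoints ℝ {g : X →L[ℝ] ℝ | ∀ x, g x ≤ N x} ∧
         ∀ ε : ℝ, 0 < ε → ∃ F : Finset ((X →L[ℝ] ℝ) →L[ℝ] ℝ), ∃ δ : ℝ, 0 < δ ∧
           ∀ g : X →L[ℝ] ℝ, (∀ x, g x ≤ N x) → (∀ φ ∈ F, |φ (g - f)| < δ) → ‖g - f‖ < ε) := by
  obtain ⟨C, c1, c2⟩ := deco h
  obtain ⟨e, he⟩ := TopologicalSpace.exists_dense_seq X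
  have : ∀ n, ∃ κ : ℝ, 0 < κ ∧ ∀ y : X →L[ℝ] ℝ,
      κ * infDist (α := X →L[ℝ] ℝ) y (C n) ^ 2 ≤ 1 + ‖y‖ ^ 2 := fun n => by
    refine ⟨(1 + infDist (α := X →L[ℝ] ℝ) 0 (C n) ^ 2)⁻¹, by positivity, fun y => ?_⟩
    have e1 := infDist_le_infDist_add_dist (α := X →L[ℝ] ℝ) (x := y) (y := 0) (s := C n)
    rw [dist_zero_right] at e1
    rw [inv_mul_le_iff₀ (by positivity)]
    nlinarith [pow_le_pow_left₀ infDist_nonneg e1 2,
      sq_nonneg (1 - infDist (α := X →L[ℝ] ℝ) 0 (C n) * ‖y‖)]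
  choose κ k0 k1 using this
  let u : ℕ → (X →L[ℝ] ℝ) → ℝ := fun j y => κ j * infDist (α := X →L[ℝ] ℝ) y (C j) ^ 2
  let v : ℕ → (X →L[ℝ] ℝ) → ℝ := fun j y => (1 + ‖e j‖ ^ 2)⁻¹ * y (e j) ^ 2
  have p : ∀ j, 0 < (1 + ‖e j‖ ^ 2)⁻¹ := fun j => by positivity
  have u1 : ∀ j, ConvexOn ℝ univ (u j) := fun j =>
    ((cv_dist (Y := X →L[ℝ] ℝ) (c1 j).2).pow (fun _ _ => infDist_nonneg) 2).smul (k0 j).le
  have v1 : ∀ j, ConvexOn ℝ univ (v j) := fun j => ConvexOn.smul (p j).le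
    ((even_two.convexOn_pow (𝕜 := ℝ)).comp_linearMap
      (NormedSpace.inclusionInDoubleDual ℝ X (e j)).toLinearMap)
  have G : Gd fun j y => u j y + v j y := ⟨fun j => (u1 j).add (v1 j), fun j y =>
    add_nonneg (mul_nonneg (k0 j).le (sq_nonneg _)) (mul_nonneg (p j).le (sq_nonneg _)),
    fun j y => by
      have : v j y ≤ ‖y‖ ^ 2 := by
        refine (inv_mul_le_iff₀ (by positivity)).2 ?_
        have := pow_le_pow_left₀ (norm_nonneg _) (y.le_opNorm (e j)) 2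
        rw [Real.norm_eq_abs, sq_abs] at this
        nlinarith [sq_nonneg ‖y‖]
      nlinarith [k1 j y, sq_nonneg ‖y‖]⟩
  have L : ∀ j, Ls fun y => u j y + v j y := fun j => LowerSemicontinuous.add
    (((ls_dist (c1 j).1).sq fun _ => infDist_nonneg).mul (k0 j).le)
    (((WeakDual.eval_continuous (e j)).pow 2).const_mul _).lowerSemicontinuous
  obtain ⟨N, n1, n2, n3, n4, n5⟩ := G.dual L
  refine ⟨N, n1, n2, n3, fun f f1 f2 => ⟨mem_extremePoints_iff_left.2 ⟨f1, ?_⟩, fun ε hε => ?_⟩⟩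
  · rintro g hg k hk ⟨a, b, a0, b0, ab, rfl⟩
    obtain rfl : g = k := DFunLike.coe_injective (he.equalizer g.continuous k.continuous
      (funext fun j => by
        have e1 := G.df g k a0.le b0.le ab j
        have e2 := (u1 j).2 (mem_univ g) (mem_univ k) a0.le b0.le ab
        have e3 := mul_le_mul_of_nonneg_left (n4 g hg) a0.le
        have e4 := mul_le_mul_of_nonneg_left (n4 k hk) b0.le
        have e5 := nonpos_of_mul_nonpos_right (e1.trans (by linarith [n5 _ f2]))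
          (by positivity)
        have e6 : a * v j g + b * v j k - v j (a • g + b • k) =
            (1 + ‖e j‖ ^ 2)⁻¹ * a * b * (g (e j) - k (e j)) ^ 2 := by
          obtain rfl : b = 1 - a := by linarith
          simp only [v, add_apply, smul_apply, smul_eq_mul]
          ring
        simp only [smul_eq_mul] at e2
        have e7 := nonpos_of_mul_nonpos_right (e6.symm.trans_le (by linarith))
          (mul_pos (mul_pos (p j) a0) b0)
        exact sub_eq_zero.1 (pow_eq_zero_iff two_ne_zero |>.1 (e7.antisymm (sq_nonneg _)))))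
    rw [← add_smul, ab, one_smul]
  · obtain ⟨j, hj, Φ, α, h1, h2⟩ := c2 f _ (half_pos hε)
    have q := sub_pos.2 h1
    obtain ⟨η, e0, e1, e2⟩ : ∃ η : ℝ, 0 < η ∧ η ≤ ε / 2 ∧ ‖Φ‖ * η ≤ (Φ f - α) / 2 := by
      refine ⟨min (ε / 2) ((Φ f - α) / 2 / (‖Φ‖ + 1)), by positivity, min_le_left _ _, ?_⟩
      have := (le_div_iff₀ (by positivity)).1 (min_le_right (ε / 2) ((Φ f - α) / 2 / (‖Φ‖ + 1)))
      have : 0 < min (ε / 2) ((Φ f - α) / 2 / (‖Φ‖ + 1)) := by positivity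
      linarith
    have := k0 j
    have w := (G.ls L).comp (g := fun y : WeakDual ℝ X => (1 / 2 : ℝ) • StrongDual.toWeakDual f +
      (1 / 2 : ℝ) • y) (by fun_prop) f (18 - (1 / 2) ^ j * (κ j * η ^ 2 / 4)) (by
        refine lt_of_lt_of_le (sub_lt_self _ (by positivity)) ((n5 f f2).trans_eq ?_)
        exact congrArg _ (by rw [← add_smul]; norm_num :
          f = (1 / 2 : ℝ) • f + (1 / 2 : ℝ) • f))
    obtain ⟨F, δ, d0, hF⟩ := wnb w
    classical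
    refine ⟨insert Φ F, min δ ((Φ f - α) / 2), by positivity, fun g g1 g2 => ?_⟩
    have e3 : 18 - (1 / 2) ^ j * (κ j * η ^ 2 / 4) <
        SF (fun j y => u j y + v j y) ((1 / 2 : ℝ) • f + (1 / 2 : ℝ) • g) :=
      hF g fun φ hφ => (g2 φ (Finset.mem_insert_of_mem hφ)).trans_le (min_le_left _ _)
    have e4 := (abs_lt.1 ((g2 Φ (Finset.mem_insert_self _ _)).trans_le (min_le_right _ _))).1
    have hf := (one_half_pos (α := ℝ)).le
    have e5 := lt_of_mul_lt_mul_left ((G.df f g hf hf (by norm_num) j).trans_lt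
      (by linarith [n4 f f1, n4 g g1] : _ < (1 / 2) ^ j * (κ j * η ^ 2 / 4))) (by positivity)
    have e6 := (v1 j).2 (mem_univ f) (mem_univ g) hf hf (by norm_num)
    have e7 := (cv_dist (Y := X →L[ℝ] ℝ) (c1 j).2).2 (mem_univ f) (mem_univ g) hf hf (by norm_num)
    have e8 := infDist_zero_of_mem (α := X →L[ℝ] ℝ) hj
    simp only [smul_eq_mul, e8, u] at e5 e6 e7
    have e9 := mul_le_mul_of_nonneg_left (pow_le_pow_left₀ infDist_nonneg e7 2) this.le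
    have e10 : infDist (α := X →L[ℝ] ℝ) g (C j) < η :=
      lt_of_pow_lt_pow_left₀ 2 e0.le (lt_of_mul_lt_mul_left (by nlinarith) this.le)
    obtain ⟨c, hc, e11⟩ := (infDist_lt_iff (α := X →L[ℝ] ℝ) ⟨f, hj⟩).1 e10
    rw [dist_eq_norm] at e11
    have e12 := (abs_le.1 ((Φ.le_opNorm (g - c)).trans
      (mul_le_mul_of_nonneg_left e11.le (norm_nonneg _)))).2
    rw [map_sub] at e4 e12
    linarith [h2 c hc (by linarith), norm_sub_le_norm_sub_add_norm_sub g c f]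

end Pool.Agent.H.MP_36cdb9
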