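import Pool.Agent.H.MP_36cdb9.I

set_option autoImplicit false
open Set Filter Topology Function Metric

namespace Pool.Agent.H.MP_36cdb9

variable {X : Type} [NormedAddCommGroup X] [NormedSpace ℝ X]

theorem lift (T : lp (fun _ : ℕ => ℝ) 1 →L[ℝ] X) {c : ℝ} (hc : 0 < c) (h : ∀ y, c * ‖y‖ ≤ ‖T y‖)
    (a : ℕ → ℝ) : ∃ g : X →L[ℝ] ℝ, ‖g‖ ≤ c⁻¹ ∧
      ((∀ m, |a m| ≤ 1) → ∀ m, g (T (lp.single 1 m 1)) = a m) := by
  by_cases ha : ∀ m, |a m| ≤ 1
  swap
  · exact ⟨0, by simpa using hc.le, fun e => (ha e).elim⟩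
  have h1 : ∀ y : lp (fun _ : ℕ => ℝ) 1, HasSum (fun i => ‖y i‖) ‖y‖ := fun y => by
    simpa using lp.hasSum_norm (by simp) y
  have h2 : ∀ (y : lp (fun _ : ℕ => ℝ) 1) i, ‖y i * a i‖ ≤ ‖y i‖ := fun y i => by
    rw [norm_mul]
    exact mul_le_of_le_one_right (norm_nonneg _) (ha i)
  have h3 : ∀ y : lp (fun _ : ℕ => ℝ) 1, Summable fun i => y i * a i := fun y =>
    (h1 y).summable.of_norm_bounded (h2 y)
  let φ : lp (fun _ : ℕ => ℝ) 1 →ₗ[ℝ] ℝ := ⟨⟨fun y => ∑' i, y i * a i, fun y z => by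
    simp only [lp.coeFn_add, Pi.add_apply, add_mul, (h3 y).tsum_add (h3 z)]⟩, fun t y => by
    simp only [lp.coeFn_smul, Pi.smul_apply, smul_eq_mul, mul_assoc, tsum_mul_left,
      RingHom.id_apply]⟩
  have inj : Injective T.toLinearMap := (injective_iff_map_eq_zero _).2 fun y e => by
    have := h y
    rw [show T y = 0 from e, norm_zero] at this
    exact norm_le_zero_iff.1 (nonpos_of_mul_nonpos_right this hc)
  let e := LinearEquiv.ofInjective _ inj
  obtain ⟨g, g1, g2⟩ := exists_extension_norm_eq (𝕜 := ℝ) (LinearMap.range T.toLinearMap)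
    ((φ ∘ₗ e.symm.toLinearMap).mkContinuous c⁻¹ fun z => by
      obtain ⟨y, rfl⟩ := e.surjective z
      simp only [LinearMap.comp_apply, LinearEquiv.coe_coe, LinearEquiv.symm_apply_apply]
      exact (tsum_of_norm_bounded (h1 y) (h2 y)).trans ((le_inv_mul_iff₀ hc).2 (h y)))
  refine ⟨g, g2.trans_le (LinearMap.mkContinuous_norm_le _ (inv_pos.2 hc).le _), fun _ m => ?_⟩
  refine (g1 (e (lp.single 1 m 1))).trans ?_
  simp only [LinearMap.mkContinuous_apply, LinearMap.comp_apply, LinearEquiv.coe_coe,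
    LinearEquiv.symm_apply_apply]
  change ∑' i, (lp.single (E := fun _ : ℕ => ℝ) 1 m 1) i * a i = a m
  rw [tsum_eq_single m fun i hi => by rw [lp.single_apply_ne _ _ _ hi, zero_mul],
    lp.single_apply_self, one_mul]

def VH (Θ : (ℕ → Option Bool) → X →L[ℝ] ℝ) : Prop :=
  ∀ p l, p l = none → Θ p = ∑ a : Bool, (1 / 2 : ℝ) • Θ (update p l (some a))

theorem limH (u : ℕ → (ℕ → Option Bool) → X →L[ℝ] ℝ) {R : ℝ} (h1 : ∀ k p, ‖u k p‖ ≤ R)
    (h2 : ∀ k, VH (u k)) : ∃ Θ : (ℕ → Option Bool) → X →L[ℝ] ℝ, (∀ p, ‖Θ p‖ ≤ R) ∧ VH Θ ∧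
      ∀ p x (s : Set ℝ), IsClosed s → (∀ᶠ k in atTop, u k p x ∈ s) → Θ p x ∈ s := by
  choose Θ t1 t2 using fun p => wlim (Ultrafilter.of atTop) (fun k => u k p) fun k => h1 k p
  refine ⟨Θ, t1, fun p l hp => ContinuousLinearMap.ext fun y => ?_, fun p x s hs h =>
    hs.mem_of_tendsto (t2 p x) (h.filter_mono (Ultrafilter.of_le _))⟩
  refine (tendsto_nhds_unique (t2 p y) ((tendsto_finsetSum Finset.univ fun (a : Bool) _ =>
    (t2 (update p l (some a)) y).const_mul (1 / 2)).congr fun k => ?_)).trans (by simp)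
  rw [h2 k p l hp]
  simp

theorem VH.stab {Θ : (ℕ → Option Bool) → X →L[ℝ] ℝ} (h : VH Θ) {R : ℝ} (h1 : ∀ p, ‖Θ p‖ ≤ R)
    (Φ : (X →L[ℝ] ℝ) →L[ℝ] ℝ) {p : ℕ → Option Bool} (hp : ∀ᶠ l in atTop, p l = none) (σ : Bool) :
    Tendsto (fun l => Φ (Θ (update p l (some σ)))) atTop (𝓝 (Φ (Θ p))) := by
  have := (MP_36cdb9.stab (α := fun _ => Bool) (w := fun _ _ => 1 / 2) (fun _ _ => by norm_num)
    (fun _ => by simp) (ρ := fun p => Φ (Θ p)) (fun p l hp => by
      refine (congrArg Φ (h p l hp)).trans ?_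
      simp) (fun p => (Φ.le_opNorm _).trans (mul_le_mul_of_nonneg_left (h1 p) (norm_nonneg _)))
    hp).const_mul 2
  rw [mul_zero] at this
  rw [tendsto_iff_norm_sub_tendsto_zero]
  have := (squeeze_zero (f := fun l => (Φ (Θ (update p l (some σ))) - Φ (Θ p)) ^ 2)
    (fun l => sq_nonneg _) (fun l => by
      have := Finset.single_le_sum (f := fun b : Bool => 1 / 2 *
        (Φ (Θ (update p l (some b))) - Φ (Θ p)) ^ 2) (fun b _ => by positivity) (Finset.mem_univ σ)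
      linarith) this).sqrt
  simpa [Real.sqrt_sq_eq_abs] using this

def sg (a : Option Bool) : ℝ := a.elim 0 fun b => if b then 1 else -1

theorem exH (T : lp (fun _ : ℕ => ℝ) 1 →L[ℝ] X) {c : ℝ} (hc : 0 < c) (h : ∀ y, c * ‖y‖ ≤ ‖T y‖) :
    ∃ Θ : (ℕ → Option Bool) → X →L[ℝ] ℝ, (∀ p, ‖Θ p‖ ≤ c⁻¹) ∧ VH Θ ∧
      ∀ p l, Θ p (T (lp.single 1 l 1)) = sg (p l) := by
  choose g g1 g2 using lift T hc h
  let mv : ℕ → Bool → (X →L[ℝ] ℝ) → X →L[ℝ] ℝ := fun l σ t =>
    g (update (fun m => t (T (lp.single 1 m 1))) l (sg (some σ)))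
  have m1 : ∀ l σ (t : X →L[ℝ] ℝ), (∀ m, |t (T (lp.single 1 m 1))| ≤ 1) → ∀ m,
      |update (fun m => t (T (lp.single 1 m 1))) l (sg (some σ)) m| ≤ 1 := fun l σ t ht m => by
    rcases eq_or_ne m l with rfl | e
    · cases σ <;> simp [sg]
    · rw [update_of_ne e]; exact ht m
  have key : ∀ p l k (t : X →L[ℝ] ℝ), (∀ m, |t (T (lp.single 1 m 1))| ≤ 1) →
      Rp (α := fun _ => Bool) (fun _ _ => 1 / 2) mv k p t (T (lp.single 1 l 1)) =
        if l < k then sg (p l) else t (T (lp.single 1 l 1)) := fun p l k => by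
    induction k with
    | zero => intro t _; rfl
    | succ k ih =>
      intro t ht
      have e := fun σ => ih (mv k σ t) fun m => by rw [g2 _ (m1 k σ t ht)]; exact m1 k σ t ht m
      have e' : ∀ σ, mv k σ t (T (lp.single 1 l 1)) = _ := fun σ => g2 _ (m1 k σ t ht) l
      simp only [e'] at e
      rw [Rp]
      cases hp : p k <;> simp only [Option.elim, Fintype.sum_bool, add_apply, smul_apply,
        smul_eq_mul, e] <;> rcases lt_trichotomy l k with f | rfl | f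
      · simp [f, f.trans k.lt_succ_self, ← two_mul]
      · simp [hp, sg]
      · simp [f.not_gt, f.ne', Nat.lt_succ_iff, f, ← two_mul]
      · simp [f, f.trans k.lt_succ_self]
      · simp [hp]
      · simp [f.not_gt, f.ne', Nat.lt_succ_iff, f]
  obtain ⟨Θ, t1, t2, t3⟩ := limH (fun k p => Rp (α := fun _ => Bool) (fun _ _ => 1 / 2) mv k p 0)
    (R := c⁻¹) (fun k p => mem_closedBall_zero_iff.1 (Rp_mem (fun _ _ => by norm_num)
      (fun _ => by simp) (C := fun _ => closedBall 0 c⁻¹)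
      (fun l a t _ => mem_closedBall_zero_iff.2 (g1 _)) (convex_closedBall 0 _) (m := 0)
      (fun t ht => ht) k.zero_le _ (mem_closedBall_self (inv_pos.2 hc).le)))
    fun k p l hp => Rp_harm (fun _ => by simp) k hp _
  exact ⟨Θ, t1, t2, fun p l => t3 p _ {sg (p l)} isClosed_singleton
    ((eventually_gt_atTop l).mono fun k hk => by
      rw [mem_singleton_iff, key _ _ _ _ (by simp), if_pos hk])⟩

end Pool.Agent.H.MP_36cdb9
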