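import Pool.Agent.H.MP_36cdb9.J

set_option autoImplicit false
open Set Filter Topology Function Metric

namespace Pool.Agent.H.MP_36cdb9

variable {X : Type} [NormedAddCommGroup X] [NormedSpace ℝ X]

def Op (U : Set (ℕ → Option Bool)) : Prop :=
  ∀ q ∈ U, ∀ᶠ l in atTop, q l = none ∧ ∀ σ, update q l (some σ) ∈ U

theorem noPC (T : lp (fun _ : ℕ => ℝ) 1 →L[ℝ] X) {c : ℝ} (hc : 0 < c) (h : ∀ y, c * ‖y‖ ≤ ‖T y‖)
    {N : X → ℝ} (n2 : ∀ (r : ℝ) (x : X), N (r • x) = |r| * N x) {a b : ℝ} (ha : 0 < a)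
    (n3 : ∀ x, a * ‖x‖ ≤ N x ∧ N x ≤ b * ‖x‖) : ∃ f : X →L[ℝ] ℝ, (∀ x, f x ≤ N x) ∧
      (∀ ε : ℝ, 0 < ε → ∃ x, N x ≤ 1 ∧ 1 - ε < f x) ∧ ∃ ε : ℝ, 0 < ε ∧
        ∀ (F : Finset ((X →L[ℝ] ℝ) →L[ℝ] ℝ)) (δ : ℝ), 0 < δ → ∃ g : X →L[ℝ] ℝ,
          (∀ x, g x ≤ N x) ∧ (∀ φ ∈ F, |φ (g - f)| < δ) ∧ ε ≤ ‖g - f‖ := by
  obtain ⟨Θ, t1, t2, t3⟩ := exH T hc h
  obtain ⟨x, x1, t3⟩ : ∃ x : ℕ → X, (∀ l, ‖x l‖ ≤ ‖T‖) ∧ ∀ p l, Θ p (x l) = sg (p l) :=
    ⟨_, fun l => T.unit_le_opNorm _ (by rw [lp.norm_single one_pos, norm_one]), t3⟩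
  have hom : ∀ (g : X →L[ℝ] ℝ) r, (∀ y, N y ≤ 1 → g y ≤ r) → ∀ y, g y ≤ r * N y := by
    intro g r hg y
    rcases eq_or_ne y 0 with rfl | e
    · have := n2 0 0
      simp only [smul_zero, abs_zero, zero_mul] at this
      simp [this]
    have p : 0 < N y := (mul_pos ha (norm_pos_iff.2 e)).trans_le (n3 y).1
    have := hg ((N y)⁻¹ • y) (by rw [n2, abs_of_pos (inv_pos.2 p), inv_mul_cancel₀ p.ne'])
    rwa [map_smul, smul_eq_mul, inv_mul_le_iff₀ p, mul_comm] at this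
  obtain ⟨ρ, r1, r2⟩ : ∃ ρ : Set (ℕ → Option Bool) → ℝ, (∀ U, ∀ q ∈ U, ∀ y, N y ≤ 1 → Θ q y ≤ ρ U) ∧
      ∀ U, U.Nonempty → ∀ t < ρ U, ∃ q ∈ U, ∃ y, N y ≤ 1 ∧ t < Θ q y := by
    refine ⟨fun U => sSup {t | ∃ q ∈ U, ∃ y, N y ≤ 1 ∧ Θ q y = t}, fun U q hq y hy =>
      le_csSup ⟨c⁻¹ * a⁻¹, ?_⟩ ⟨q, hq, y, hy, rfl⟩, fun U ⟨q, hq⟩ t ht => ?_⟩
    · rintro _ ⟨q, -, y, hy, rfl⟩
      refine (le_abs_self _).trans (((Θ q).le_of_opNorm_le (t1 q) y).trans
        (mul_le_mul_of_nonneg_left ?_ (inv_pos.2 hc).le))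
      rw [← mul_one a⁻¹, le_inv_mul_iff₀ ha]
      exact (n3 y).1.trans hy
    · obtain ⟨_, ⟨q, hq, y, hy, rfl⟩, e⟩ := exists_lt_of_lt_csSup
        (s := {t | ∃ q ∈ U, ∃ y, N y ≤ 1 ∧ Θ q y = t})
        ⟨_, q, hq, 0, (n3 0).2.trans (by simp), rfl⟩ ht
      exact ⟨q, hq, y, hy, e⟩
  let S := {U : Set (ℕ → Option Bool) // U.Nonempty ∧ Op U}
  have step : ∀ (U : S) (k : ℕ), ∃ (q : ℕ → Option Bool) (y : X) (r : ℕ) (V : S), N y ≤ 1 ∧ k ≤ r ∧
      q ∈ V.1 ∧ ∀ p ∈ V.1, p ∈ U.1 ∧ ρ U.1 - 1 / (k + 1) < Θ p y ∧ p r = none ∧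
        ∀ σ, update p r (some σ) ∈ U.1 := fun U k => by
    obtain ⟨q, hq, y, hy, e⟩ := r2 U.1 U.2.1 _ (sub_lt_self _ (Nat.one_div_pos_of_nat (n := k)))
    obtain ⟨r, e1, e2⟩ := ((eventually_ge_atTop k).and (U.2.2 q hq)).exists
    refine ⟨q, y, r, ⟨{p | p ∈ U.1 ∧ ρ U.1 - 1 / (k + 1) < Θ p y ∧ p r = none ∧
      ∀ σ, update p r (some σ) ∈ U.1}, ⟨q, hq, e, e2⟩,
      fun p ⟨p1, p2, p3, p4⟩ => ?_⟩, hy, e1, ⟨hq, e, e2⟩,
      fun p hp => hp⟩
    filter_upwards [U.2.2 p p1, eventually_ne_atTop r, eventually_all.2 fun σ => U.2.2 _ (p4 σ),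
      eventually_all.2 fun σ => (t2.stab t1 (NormedSpace.inclusionInDoubleDual ℝ X y)
        ((U.2.2 p p1).mono fun l hl => hl.1) σ).eventually (lt_mem_nhds p2)] with l k1 k2 k3 k4
    exact ⟨k1.1, fun σ => ⟨k1.2 σ, k4 σ, by rwa [update_of_ne k2.symm], fun τ => by
      rw [update_comm k2]; exact (k3 τ).2 σ⟩⟩
  choose q y r V s1 s2 s3 s4 using step
  obtain ⟨U, hU⟩ : ∃ U : ℕ → S, ∀ k, U (k + 1) = V (U k) k :=
    ⟨fun k => Nat.rec (motive := fun _ => S) ⟨{p | ∀ᶠ l in atTop, p l = none},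
      ⟨fun _ => none, .of_forall fun _ => rfl⟩, fun p hp => hp.mono fun l hl => ⟨hl, fun σ => by
        filter_upwards [hp, eventually_ne_atTop l] with m k1 k2
        rwa [update_of_ne k2]⟩⟩ (fun k U => V U k) k, fun _ => rfl⟩
  have an : Antitone fun k => (U k).1 := antitone_nat_of_succ_le fun k p hp =>
    (s4 (U k) k p (hU k ▸ hp)).1
  have s5 := fun k j (e : k ≤ j) => s4 (U k) k (q (U j) j) (by
    rw [← hU]
    exact an (Nat.succ_le_succ e) (by dsimp only; rw [hU]; exact s3 (U j) j))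
  classical
  obtain ⟨Ψ, p1, p2, p3⟩ := limH (fun j u => Θ fun l => if ∃ k < j, r (U k) k = l then u l else
    q (U j) j l) (fun j u => t1 _) fun j u l hl => by
      by_cases e : ∃ k < j, r (U k) k = l
      · refine (t2 _ l (by rw [if_pos e, hl])).trans (Finset.sum_congr rfl fun σ _ => ?_)
        congr 2
        funext m
        rcases eq_or_ne m l with rfl | f
        · simp [e]
        · simp [f]
      · have : ∀ σ, (fun m => if ∃ k < j, r (U k) k = m then update u l (some σ) m else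
            q (U j) j m) = fun m => if ∃ k < j, r (U k) k = m then u m else q (U j) j m :=
          fun σ => funext fun m => by
            rcases eq_or_ne m l with rfl | f
            · simp [e]
            · simp [f]
        simp only [this, ← Finset.sum_smul]
        simp
  have m0 : ∀ j, (fun l => if ∃ k < j, r (U k) k = l then none else q (U j) j l) = q (U j) j :=
    fun j => funext fun l => by
      split_ifs with e
      · obtain ⟨k, e, rfl⟩ := e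
        exact (s5 k j e.le).2.2.1.symm
      · rfl
  have m1 : ∀ k j, k < j → (fun l => if ∃ k < j, r (U k) k = l then
      update (fun _ => none) (r (U k) k) (some true) l else q (U j) j l) =
      update (q (U j) j) (r (U k) k) (some true) := fun k j e => funext fun l => by
    rcases eq_or_ne l (r (U k) k) with rfl | f
    · rw [if_pos ⟨k, e, rfl⟩, update_self, update_self]
    · simp only [update_of_ne f]
      exact congrFun (m0 j) l
  have f1 : ∀ k z, N z ≤ 1 → Ψ (fun _ => none) z ≤ ρ (U k).1 := fun k z hz =>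
    p3 _ z (Iic _) isClosed_Iic ((eventually_ge_atTop k).mono fun j e => by
      rw [m0]; exact r1 _ _ (s5 k j e).1 z hz)
  have f2 : ∀ k, ρ (U k).1 - 1 / (k + 1) ≤ Ψ (fun _ => none) (y (U k) k) := fun k =>
    p3 _ _ (Ici _) isClosed_Ici ((eventually_ge_atTop k).mono fun j e => by
      rw [m0]; exact (s5 k j e).2.1.le)
  have f3 : ∀ k, Ψ (fun _ => none) (x (r (U k) k)) = 0 := fun k =>
    p3 _ _ {0} isClosed_singleton ((eventually_ge_atTop k).mono fun j e => by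
      rw [m0, mem_singleton_iff, t3, (s5 k j e).2.2.1]; rfl)
  have g1 : ∀ k z, N z ≤ 1 → Ψ (update (fun _ => none) (r (U k) k) (some true)) z ≤ ρ (U k).1 :=
    fun k z hz => p3 _ z (Iic _) isClosed_Iic ((eventually_gt_atTop k).mono fun j e => by
      rw [m1 k j e]; exact r1 _ _ ((s5 k j e.le).2.2.2 _) z hz)
  have g2 : ∀ k, Ψ (update (fun _ => none) (r (U k) k) (some true)) (x (r (U k) k)) = 1 := fun k =>
    p3 _ _ {1} isClosed_singleton ((eventually_gt_atTop k).mono fun j e => by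
      rw [m1 k j e, mem_singleton_iff, t3, update_self]; rfl)
  have g3 := fun φ => (p2.stab p1 φ (p := fun _ => none) (.of_forall fun _ => rfl) true).comp
    (tendsto_atTop_mono (fun k => s2 (U k) k) tendsto_id)
  generalize Ψ (fun _ => none) = f at f1 f2 f3 g3
  have B0 : 0 < |b| * ‖T‖ + 1 := by positivity
  have lo : ∀ k, (|b| * ‖T‖ + 1)⁻¹ ≤ ρ (U k).1 := fun k => by
    have e1 := hom _ _ (g1 k) (x (r (U k) k))
    have e2 := g1 k 0 ((n3 0).2.trans (by simp))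
    have e3 : N (x (r (U k) k)) ≤ |b| * ‖T‖ := (n3 _).2.trans
      (mul_le_mul (le_abs_self _) (x1 _) (norm_nonneg _) (abs_nonneg _))
    rw [g2] at e1
    rw [map_zero] at e2
    rw [inv_le_iff_one_le_mul₀ B0]
    nlinarith
  have bd : BddBelow (range fun k => ρ (U k).1) := ⟨_, forall_mem_range.2 lo⟩
  have p0 : 0 < ⨅ k, ρ (U k).1 := (inv_pos.2 B0).trans_le (le_ciInf lo)
  have ar : Antitone fun k => ρ (U k).1 := fun k j e => le_of_forall_lt fun t ht => by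
    obtain ⟨p, hp, z, hz, e'⟩ := r2 _ (U j).2.1 t ht
    exact e'.trans_le (r1 _ _ (an e hp) z hz)
  have tr := tendsto_atTop_ciInf ar bd
  have ci := ciInf_le bd
  have f1 : ∀ z, N z ≤ 1 → f z ≤ ⨅ k, ρ (U k).1 := fun z hz => le_ciInf fun k => f1 k z hz
  generalize ⨅ k, ρ (U k).1 = s at p0 tr ci f1
  have pk := fun k => p0.trans_le (ci k)
  refine ⟨s⁻¹ • f, fun z => (inv_mul_le_iff₀ p0).2 (hom f s f1 z), fun ε hε => ?_,
    (ρ (U 0).1)⁻¹ / (‖T‖ + 1), div_pos (inv_pos.2 (pk 0)) (by positivity), fun F δ d0 => ?_⟩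
  · obtain ⟨k, hk⟩ := exists_nat_one_div_lt (mul_pos p0 hε)
    have : s * (1 - ε) < f (y (U k) k) := by linarith [f2 k, ci k]
    exact ⟨_, s1 (U k) k, (lt_inv_mul_iff₀ p0).2 this⟩
  · obtain ⟨k, hk⟩ := ((eventually_all_finset F).2 fun φ _ => (((tr.inv₀ p0.ne').mul
      (g3 φ)).eventually (ball_mem_nhds _ d0))).exists
    refine ⟨(ρ (U k).1)⁻¹ • Ψ (update (fun _ => none) (r (U k) k) (some true)),
      fun z => (inv_mul_le_iff₀ (pk k)).2 (hom _ _ (g1 k) z), fun φ hφ => ?_, ?_⟩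
    · rw [map_sub, map_smul, map_smul]
      exact hk φ hφ
    · have e := ((ρ (U k).1)⁻¹ • Ψ (update (fun _ => none) (r (U k) k) (some true)) -
        s⁻¹ • f).le_opNorm (x (r (U k) k))
      simp only [sub_apply, smul_apply, g2, f3, smul_eq_mul, mul_one, mul_zero, sub_zero] at e
      have e1 := (inv_anti₀ (pk k) (ar k.zero_le)).trans ((le_abs_self _).trans e)
      rw [div_le_iff₀ (by positivity)]
      exact e1.trans (mul_le_mul_of_nonneg_left ((x1 _).trans (by linarith)) (norm_nonneg _))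

end Pool.Agent.H.MP_36cdb9
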